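import Mathlib

/-!
# The strong chromatic index of bipartite graphs, asymptotically

Let `G` be bipartite with parts `A` (degrees at most `a`) and its complement (degrees at most `b`),
`b ≤ a`.  Take `b * m` stages, `m` of order `log a`.  In every stage every vertex of `A` gets a
random level, and `x` is *strictly first* for `y` if its level is smaller than that of all other
neighbours of `y`.

1. Local lemma: there are levels such that every edge `x y` has at least `(1 - ε/4) m` stages in
   which `x` is strictly first for `y`.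
2. Local lemma: if every edge picks one of its stages at random, then there are picks such that for
   every `x` and every stage `j` at most `(1 + ε) a / m` vertices `y ∈ N(x)` have an edge of stage
   `j`.
3. Stage lemma (deterministic): the edges of one stage can be coloured greedily in the order of the
   levels with a palette of `(1 + ε) a / m` colours: an earlier conflict of `x y` always comes from
   a neighbour of `x`.

Altogether `b m (1 + ε) a / m = (1 + ε) a b` colours.
-/

namespace Pool.Agent.Results.MP_433a35_co.Bipartite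

open Finset

set_option linter.unusedSectionVars false

/-! ### The symmetric local lemma -/

section LLL
variable {I : Type*} [Fintype I] [DecidableEq I] {Om : I → Type*} [∀ i, Fintype (Om i)]
  [∀ i, DecidableEq (Om i)]

/-- Independence: an event depending only on the coordinates in `S` and an event depending only on
the other coordinates. -/
lemma indep (S : Finset I) (A B : Finset (∀ i, Om i))
    (hA : ∀ w w', (∀ i ∈ S, w i = w' i) → w ∈ A → w' ∈ A)
    (hB : ∀ w w', (∀ i, i ∉ S → w i = w' i) → w ∈ B → w' ∈ B) :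
    A.card * B.card = (A ∩ B).card * Fintype.card (∀ i, Om i) := by
  classical
  rw [← card_univ, ← card_product, ← card_product]
  let mix : (∀ i, Om i) → (∀ i, Om i) → (∀ i, Om i) := fun w w' i => if i ∈ S then w i else w' i
  have m1 : ∀ w w' i, i ∈ S → mix w w' i = w i := fun w w' i hi => if_pos hi
  have m2 : ∀ w w' i, i ∉ S → mix w w' i = w' i := fun w w' i hi => if_neg hi
  refine card_bij' (fun q _ => (mix q.1 q.2, mix q.2 q.1)) (fun q _ => (mix q.1 q.2, mix q.2 q.1))
    ?_ ?_ ?_ ?_
  · rintro ⟨w, w'⟩ h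
    rw [mem_product] at h
    rw [mem_product, mem_inter]
    exact ⟨⟨hA w _ (fun i hi => (m1 _ _ i hi).symm) h.1,
      hB w' _ (fun i hi => (m2 _ _ i hi).symm) h.2⟩, mem_univ _⟩
  · rintro ⟨w, w'⟩ h
    rw [mem_product, mem_inter] at h
    rw [mem_product]
    exact ⟨hA w _ (fun i hi => (m1 _ _ i hi).symm) h.1.1,
      hB w _ (fun i hi => (m2 _ _ i hi).symm) h.1.2⟩
  · rintro ⟨w, w'⟩ _
    simp only [Prod.mk.injEq]
    constructor <;> funext i <;> by_cases hi : i ∈ S <;> simp [mix, hi]
  · rintro ⟨w, w'⟩ _
    simp only [Prod.mk.injEq]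
    constructor <;> funext i <;> by_cases hi : i ∈ S <;> simp [mix, hi]

/-- The symmetric local lemma. -/
theorem lll [∀ i, Nonempty (Om i)] {K : Type*} [Fintype K] [DecidableEq K]
    (Bad : K → (∀ i, Om i) → Prop) [∀ k, DecidablePred (Bad k)] (S : K → Finset I)
    (hS : ∀ k w w', (∀ i ∈ S k, w i = w' i) → Bad k w → Bad k w')
    (p : ℝ) (hp0 : 0 ≤ p)
    (hp : ∀ k, ((univ.filter (Bad k)).card : ℝ) ≤ p * Fintype.card (∀ i, Om i))
    (d : ℕ) (hd1 : 1 ≤ d)
    (hd : ∀ k, (univ.filter fun k' => ¬ Disjoint (S k) (S k')).card ≤ d)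
    (h4 : 4 * p * d ≤ 1) : ∃ w, ∀ k, ¬ Bad k w := by
  classical
  let N : Finset K → Finset (∀ i, Om i) := fun T => univ.filter fun w => ∀ k ∈ T, ¬ Bad k w
  have hN : ∀ T w, w ∈ N T ↔ ∀ k ∈ T, ¬ Bad k w := fun T w => by simp [N]
  have hNs : ∀ T w w', (∀ k ∈ T, ∀ i ∈ S k, w i = w' i) → w ∈ N T → w' ∈ N T := by
    intro T w w' h hw
    rw [hN] at hw ⊢
    intro k hk hb
    exact hw k hk (hS k w' w (fun i hi => (h k hk i hi).symm) hb)
  have hOm : (0 : ℝ) < Fintype.card (∀ i, Om i) := by
    exact_mod_cast Fintype.card_pos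
  have hpd : 2 * p * d ≤ 1 / 2 := by linarith
  have key : ∀ n : ℕ, ∀ T : Finset K, T.card = n → ∀ k,
      (((N T).filter (Bad k)).card : ℝ) ≤ 2 * p * (N T).card := by
    intro n
    induction n using Nat.strong_induction_on with
    | _ n ih =>
      intro T hT k
      let T1 := T.filter fun k' => ¬ Disjoint (S k) (S k')
      let T2 := T.filter fun k' => Disjoint (S k) (S k')
      -- independence
      have h1 : ((univ.filter (Bad k)).card : ℝ) * (N T2).card =
          ((univ.filter (Bad k) ∩ N T2).card : ℝ) * Fintype.card (∀ i, Om i) := by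
        have := indep (S k) (univ.filter (Bad k)) (N T2)
          (fun w w' h hw => by
            rw [mem_filter] at hw ⊢
            exact ⟨mem_univ _, hS k w w' h hw.2⟩)
          (fun w w' h hw => hNs T2 w w' (fun k' hk' i hi => h i (fun hik => by
            have hdis := (mem_filter.1 hk').2
            exact (disjoint_left.1 hdis) hik hi)) hw)
        exact_mod_cast this
      have h2 : ((univ.filter (Bad k) ∩ N T2).card : ℝ) ≤ p * (N T2).card := by
        have h3 := mul_le_mul_of_nonneg_right (hp k) (Nat.cast_nonneg (α := ℝ) (N T2).card)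
        rw [h1] at h3
        have h4 : ((univ.filter (Bad k) ∩ N T2).card : ℝ) * Fintype.card (∀ i, Om i) ≤
            (p * (N T2).card) * Fintype.card (∀ i, Om i) := by
          calc _ ≤ p * (Fintype.card (∀ i, Om i)) * ((N T2).card : ℝ) := h3
            _ = _ := by ring
        exact le_of_mul_le_mul_right h4 hOm
      have h3 : (N T).filter (Bad k) ⊆ univ.filter (Bad k) ∩ N T2 := by
        intro w hw
        rw [mem_filter, hN] at hw
        rw [mem_inter, mem_filter, hN]
        exact ⟨⟨mem_univ _, hw.2⟩, fun k' hk' => hw.1 k' (mem_filter.1 hk').1⟩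
      have h5 : (((N T).filter (Bad k)).card : ℝ) ≤ p * (N T2).card :=
        le_trans (by exact_mod_cast card_le_card h3) h2
      -- the lower bound for N T
      have h6 : ((N T2).card : ℝ) ≤ 2 * (N T).card := by
        rcases T1.eq_empty_or_nonempty with h0 | h0
        · have hTT : T2 = T := by
            have := filter_union_filter_not_eq (fun k' => Disjoint (S k) (S k')) T
            change T2 ∪ T1 = T at this
            rw [h0, union_empty] at this
            exact this
          rw [hTT]
          have : (0 : ℝ) ≤ (N T).card := Nat.cast_nonneg _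
          linarith
        · have hlt : T2.card < n := by
            have h7 : T2.card + T1.card = T.card :=
              card_filter_add_card_filter_not (s := T) (fun k' => Disjoint (S k) (S k'))
            have h8 : 0 < T1.card := card_pos.2 h0
            omega
          have h7 : N T2 ⊆ N T ∪ T1.biUnion fun k' => (N T2).filter (Bad k') := by
            intro w hw
            rw [mem_union]
            by_cases hall : w ∈ N T
            · exact Or.inl hall
            · right
              rw [hN] at hall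
              push Not at hall
              obtain ⟨k', hk', hb⟩ := hall
              rw [mem_biUnion]
              refine ⟨k', ?_, mem_filter.2 ⟨hw, hb⟩⟩
              rw [mem_filter]
              refine ⟨hk', fun hdis => ?_⟩
              exact (hN _ _).1 hw k' (mem_filter.2 ⟨hk', hdis⟩) hb
          have h8 : ((N T2).card : ℝ) ≤ (N T).card +
              ∑ k' ∈ T1, (((N T2).filter (Bad k')).card : ℝ) := by
            have h9 := (card_le_card h7).trans (card_union_le _ _)
            have h10 := h9.trans (Nat.add_le_add_left card_biUnion_le _)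
            exact_mod_cast h10
          have h9 : ∑ k' ∈ T1, (((N T2).filter (Bad k')).card : ℝ) ≤
              ∑ k' ∈ T1, 2 * p * ((N T2).card : ℝ) :=
            sum_le_sum fun k' _ => ih _ hlt T2 rfl k'
          rw [sum_const, nsmul_eq_mul] at h9
          have h10 : (T1.card : ℝ) ≤ d := by
            have : T1 ⊆ univ.filter fun k' => ¬ Disjoint (S k) (S k') :=
              fun k' hk' => mem_filter.2 ⟨mem_univ _, (mem_filter.1 hk').2⟩
            exact_mod_cast (card_le_card this).trans (hd k)
          have h11 : (0 : ℝ) ≤ (N T2).card := Nat.cast_nonneg _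
          have h12 : (T1.card : ℝ) * (2 * p * ((N T2).card : ℝ)) ≤
              (1 / 2) * ((N T2).card : ℝ) := by
            have h13 : (T1.card : ℝ) * (2 * p * ((N T2).card : ℝ)) ≤
                (d : ℝ) * (2 * p * ((N T2).card : ℝ)) := by
              apply mul_le_mul_of_nonneg_right h10
              positivity
            have h14 : (d : ℝ) * (2 * p * ((N T2).card : ℝ)) = (2 * p * d) * (N T2).card := by
              ring
            rw [h14] at h13
            exact h13.trans (mul_le_mul_of_nonneg_right hpd h11)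
          linarith
      calc (((N T).filter (Bad k)).card : ℝ) ≤ p * (N T2).card := h5
        _ ≤ p * (2 * (N T).card) := mul_le_mul_of_nonneg_left h6 hp0
        _ = 2 * p * (N T).card := by ring
  -- positivity
  have hpos : ∀ T : Finset K, 0 < (N T).card := by
    intro T
    induction T using Finset.induction_on with
    | empty =>
      have : N ∅ = univ := by
        ext w; simp [N]
      rw [this, card_univ]
      exact Fintype.card_pos
    | insert k T _ ih =>
      have h1 := key _ T rfl k
      have h2 : N T ⊆ N (insert k T) ∪ (N T).filter (Bad k) := by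
        intro w hw
        rw [mem_union]
        by_cases hb : Bad k w
        · exact Or.inr (mem_filter.2 ⟨hw, hb⟩)
        · left
          rw [hN] at hw ⊢
          intro k' hk'
          rcases mem_insert.1 hk' with rfl | h
          · exact hb
          · exact hw k' h
      have h3 : ((N T).card : ℝ) ≤ (N (insert k T)).card + ((N T).filter (Bad k)).card := by
        exact_mod_cast (card_le_card h2).trans (card_union_le _ _)
      have h4 : (0 : ℝ) < (N T).card := by exact_mod_cast ih
      have h5 : 2 * p ≤ 1 / 2 := by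
        have h6 : (1 : ℝ) ≤ d := by exact_mod_cast hd1
        nlinarith
      have h6 : 2 * p * ((N T).card : ℝ) ≤ (1 / 2) * (N T).card :=
        mul_le_mul_of_nonneg_right h5 h4.le
      have h7 : (0 : ℝ) < (N (insert k T)).card := by linarith
      exact_mod_cast h7
  obtain ⟨w, hw⟩ := card_pos.1 (hpos univ)
  exact ⟨w, fun k => (hN _ _).1 hw k (mem_univ k)⟩

end LLL

/-! ### First count -/

section P1
section
variable {V : Type*} [Fintype V] [DecidableEq V]

/-- Functions with a coincidence. -/
lemma card_coinc (M : ℕ) {z z' : V} (hne : z ≠ z') :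
    (univ.filter fun u : V → Fin M => u z = u z').card * M ≤ Fintype.card (V → Fin M) := by
  classical
  have hcp : ((univ.filter fun u : V → Fin M => u z = u z') ×ˢ (univ : Finset (Fin M))).card =
      (univ.filter fun u : V → Fin M => u z = u z').card * M := by
    rw [card_product, card_univ, Fintype.card_fin]
  rw [← hcp, ← card_univ]
  refine card_le_card_of_injOn (fun q => Function.update q.1 z q.2) (fun _ _ => mem_univ _) ?_
  rintro ⟨u, c⟩ hu ⟨u', c'⟩ hu' h
  rw [mem_coe, mem_product, mem_filter] at hu hu'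
  have hu1 : u z = u z' := hu.1.2
  have hu2 : u' z = u' z' := hu'.1.2
  simp only at h
  have hc : c = c' := by
    have := congrFun h z
    simpa using this
  have h2 : ∀ v, v ≠ z → u v = u' v := by
    intro v hv
    have := congrFun h v
    simpa [Function.update_of_ne hv] using this
  have h3 : u = u' := by
    funext v
    by_cases hv : v = z
    · subst hv
      rw [hu1, hu2]
      exact h2 z' (fun h => hne h.symm)
    · exact h2 v hv
  rw [hc, h3]

/-- `x` is strictly first in `N` under `u`. -/
def SF {M : ℕ} (N : Finset V) (u : V → Fin M) (x : V) : Prop := ∀ z ∈ N, z ≠ x → u x < u z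

instance {M : ℕ} (N : Finset V) (u : V → Fin M) (x : V) : Decidable (SF N u x) := by
  unfold SF; infer_instance

lemma card_SF_symm (M : ℕ) (N : Finset V) {x x' : V} (hx : x ∈ N) (hx' : x' ∈ N) :
    (univ.filter fun u : V → Fin M => SF N u x').card =
      (univ.filter fun u : V → Fin M => SF N u x).card := by
  classical
  have aux : ∀ a b : V, a ∈ N → b ∈ N → ∀ u : V → Fin M, SF N u a →
      SF N (u ∘ Equiv.swap a b) b := by
    intro a b ha hb u hu z hz hzb
    simp only [Function.comp_apply, Equiv.swap_apply_right]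
    rcases eq_or_ne z a with rfl | hza
    · rw [Equiv.swap_apply_left]
      exact hu b hb (fun h => hzb h.symm)
    · rw [Equiv.swap_apply_of_ne_of_ne hza hzb]
      exact hu z hz hza
  refine card_bij' (fun u _ => u ∘ Equiv.swap x' x) (fun u _ => u ∘ Equiv.swap x x') ?_ ?_ ?_ ?_
  · intro u hu
    rw [mem_filter] at hu ⊢
    exact ⟨mem_univ _, aux x' x hx' hx u hu.2⟩
  · intro u hu
    rw [mem_filter] at hu ⊢
    exact ⟨mem_univ _, aux x x' hx hx' u hu.2⟩
  · intro u _
    funext v
    simp [Equiv.swap_comm x x']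
  · intro u _
    funext v
    simp [Equiv.swap_comm x x']

/-- Lower bound for the number of functions with `x` strictly first. -/
lemma card_SF (M : ℕ) (N : Finset V) {x : V} (hx : x ∈ N) (s : ℝ)
    (hM : (N.card : ℝ) ^ 2 ≤ s * M) :
    (1 - s) * (Fintype.card (V → Fin M) : ℝ) ≤
      N.card * ((univ.filter fun u : V → Fin M => SF N u x).card : ℝ) := by
  classical
  -- the functions with a coincidence
  let C : Finset (V → Fin M) := (N ×ˢ N).biUnion fun q =>
    if q.1 = q.2 then ∅ else univ.filter fun u : V → Fin M => u q.1 = u q.2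
  have hcov : (univ : Finset (V → Fin M)) ⊆
      (N.biUnion fun x' => univ.filter fun u : V → Fin M => SF N u x') ∪ C := by
    intro u _
    rw [mem_union]
    by_cases hinj : ∃ q ∈ N ×ˢ N, q.1 ≠ q.2 ∧ u q.1 = u q.2
    · right
      obtain ⟨q, hq, hne, heq⟩ := hinj
      rw [mem_biUnion]
      refine ⟨q, hq, ?_⟩
      rw [if_neg hne, mem_filter]
      exact ⟨mem_univ _, heq⟩
    · left
      push Not at hinj
      obtain ⟨x0, hx0, hmin⟩ := exists_min_image N u ⟨x, hx⟩
      rw [mem_biUnion]
      refine ⟨x0, hx0, mem_filter.2 ⟨mem_univ _, fun z hz hne => ?_⟩⟩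
      refine lt_of_le_of_ne (hmin z hz) fun h => ?_
      exact hinj (x0, z) (mem_product.2 ⟨hx0, hz⟩) (fun h => hne h.symm) h
  have h1 := (card_le_card hcov).trans (card_union_le _ _)
  have h2 : (N.biUnion fun x' => univ.filter fun u : V → Fin M => SF N u x').card ≤
      N.card * (univ.filter fun u : V → Fin M => SF N u x).card := by
    apply card_biUnion_le_card_mul
    intro x' hx'
    exact (card_SF_symm M N hx hx').le
  have h3 : C.card * M ≤ N.card ^ 2 * Fintype.card (V → Fin M) := by
    have h4 : C.card ≤ ∑ q ∈ N ×ˢ N, (if q.1 = q.2 then (∅ : Finset (V → Fin M)) else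
        univ.filter fun u : V → Fin M => u q.1 = u q.2).card := card_biUnion_le
    calc C.card * M ≤ (∑ q ∈ N ×ˢ N, (if q.1 = q.2 then (∅ : Finset (V → Fin M)) else
        univ.filter fun u : V → Fin M => u q.1 = u q.2).card) * M := Nat.mul_le_mul_right _ h4
      _ = ∑ q ∈ N ×ˢ N, (if q.1 = q.2 then (∅ : Finset (V → Fin M)) else
        univ.filter fun u : V → Fin M => u q.1 = u q.2).card * M := sum_mul _ _ _
      _ ≤ ∑ q ∈ N ×ˢ N, Fintype.card (V → Fin M) := by
          refine sum_le_sum fun q _ => ?_
          split_ifs with h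
          · simp
          · exact card_coinc M h
      _ = N.card ^ 2 * Fintype.card (V → Fin M) := by
          rw [sum_const, card_product, smul_eq_mul, sq]
  rw [card_univ] at h1
  have h1' : (Fintype.card (V → Fin M) : ℝ) ≤
      N.card * ((univ.filter fun u : V → Fin M => SF N u x).card : ℝ) + C.card := by
    exact_mod_cast h1.trans (Nat.add_le_add_right h2 _)
  have h3' : (C.card : ℝ) * M ≤ (N.card : ℝ) ^ 2 * (Fintype.card (V → Fin M) : ℝ) := by
    exact_mod_cast h3
  have hM0 : (0 : ℝ) < M ∨ M = 0 := by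
    rcases Nat.eq_zero_or_pos M with h | h
    · exact Or.inr h
    · exact Or.inl (by exact_mod_cast h)
  rcases hM0 with hM0 | hM0
  · have h5 : (C.card : ℝ) ≤ s * (Fintype.card (V → Fin M) : ℝ) := by
      have h6 : (C.card : ℝ) * M ≤ (s * (Fintype.card (V → Fin M) : ℝ)) * M := by
        calc (C.card : ℝ) * M ≤ (N.card : ℝ) ^ 2 * (Fintype.card (V → Fin M) : ℝ) := h3'
          _ ≤ (s * M) * (Fintype.card (V → Fin M) : ℝ) :=
              mul_le_mul_of_nonneg_right hM (Nat.cast_nonneg _)
          _ = _ := by ring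
      exact le_of_mul_le_mul_right h6 hM0
    linarith
  · subst hM0
    exfalso
    have h7 : (0 : ℝ) < N.card := by exact_mod_cast card_pos.2 ⟨x, hx⟩
    simp only [Nat.cast_zero, mul_zero] at hM
    have := pow_pos h7 2
    linarith

/-- The number of stages in which `x` is strictly first is rarely small. -/
theorem firsts (N : Finset V) {x : V} (hx : x ∈ N) (r M : ℕ) (s : ℝ) (hs0 : 0 < s)
    (hs1 : s ≤ 1 / 4) (hM : (N.card : ℝ) ^ 2 ≤ s * M) :
    ((univ.filter fun w : V → Fin r → Fin M =>
      ((univ.filter fun j : Fin r => SF N (fun v => w v j) x).card : ℝ) <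
        (1 - 4 * s) * r / N.card).card : ℝ) ≤
      Real.exp (-(2 * s ^ 2 * r / N.card)) * (Fintype.card (V → Fin r → Fin M) : ℝ) := by
  classical
  have hd : (0 : ℝ) < N.card := by exact_mod_cast card_pos.2 ⟨x, hx⟩
  have hMpos : 0 < M := by
    rcases Nat.eq_zero_or_pos M with h | h
    · subst h
      simp only [Nat.cast_zero, mul_zero] at hM
      have := pow_pos hd 2
      linarith
    · exact h
  have : Nonempty (Fin M) := ⟨⟨0, hMpos⟩⟩
  have hcardu : (0 : ℝ) < (Fintype.card (V → Fin M) : ℝ) := by
    exact_mod_cast Fintype.card_pos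
  set d : ℝ := (N.card : ℝ) with hddef
  have h1s : (0 : ℝ) < 1 - s := by linarith
  let g : (V → Fin M) → ℝ := fun u => if SF N u x then 1 - s else 1
  let q0 : ℝ := ((univ.filter fun u : V → Fin M => SF N u x).card : ℝ)
  have hq0 : (1 - s) * (Fintype.card (V → Fin M) : ℝ) ≤ d * q0 := card_SF M N hx s hM
  -- one stage
  have hg : ∑ u, g u = (Fintype.card (V → Fin M) : ℝ) - s * q0 := by
    have h2 : ∀ u, g u = 1 - (if SF N u x then s else 0) := by
      intro u
      simp only [g]
      split_ifs <;> ring
    rw [sum_congr rfl fun u _ => h2 u, sum_sub_distrib, sum_const, card_univ, nsmul_eq_mul,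
      mul_one, ← sum_filter, sum_const, nsmul_eq_mul, mul_comm s]
  have hg1 : ∑ u, g u ≤ (Fintype.card (V → Fin M) : ℝ) * Real.exp (-(s * (1 - s) / d)) := by
    rw [hg]
    have h3 : (1 - s) / d * (Fintype.card (V → Fin M) : ℝ) ≤ q0 := by
      rw [div_mul_eq_mul_div, div_le_iff₀ hd]
      linarith
    have h4 : 1 - s * (1 - s) / d ≤ Real.exp (-(s * (1 - s) / d)) := by
      have := Real.add_one_le_exp (-(s * (1 - s) / d))
      linarith
    have h5 := mul_le_mul_of_nonneg_left h4 hcardu.le
    have h6 : (Fintype.card (V → Fin M) : ℝ) * (1 - s * (1 - s) / d) =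
        (Fintype.card (V → Fin M) : ℝ) - s * ((1 - s) / d * (Fintype.card (V → Fin M) : ℝ)) := by
      ring
    have h7 := mul_le_mul_of_nonneg_left h3 hs0.le
    linarith
  have hg0 : 0 ≤ ∑ u, g u := by
    refine sum_nonneg fun u _ => ?_
    simp only [g]
    split_ifs
    · exact h1s.le
    · exact zero_le_one
  -- all stages
  have hprod : ∀ w : V → Fin r → Fin M, ∏ j, g (fun v => w v j) =
      (1 - s) ^ (univ.filter fun j : Fin r => SF N (fun v => w v j) x).card := by
    intro w
    simp only [g]
    rw [prod_ite, prod_const_one, mul_one, prod_const]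
  have hsum : ∑ w : V → Fin r → Fin M,
      (1 - s) ^ (univ.filter fun j : Fin r => SF N (fun v => w v j) x).card =
      (∑ u, g u) ^ r := by
    have h3 : (∑ u, g u) ^ r = ∑ w : Fin r → V → Fin M, ∏ j, g (w j) := by
      have h4 : (∑ u, g u) ^ r = ∏ _j : Fin r, ∑ u, g u := by
        rw [prod_const, card_univ, Fintype.card_fin]
      rw [h4, prod_univ_sum, Fintype.piFinset_univ]
    rw [h3]
    refine Fintype.sum_equiv (Equiv.piComm fun (_ : V) (_ : Fin r) => Fin M) _ _ fun w => ?_
    rw [← hprod]
    rfl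
  have hcard : (Fintype.card (V → Fin r → Fin M) : ℝ) = (Fintype.card (V → Fin M) : ℝ) ^ r := by
    have : Fintype.card (V → Fin r → Fin M) = Fintype.card (Fin r → V → Fin M) :=
      Fintype.card_congr (Equiv.piComm fun (_ : V) (_ : Fin r) => Fin M)
    rw [this, Fintype.card_fun, Fintype.card_fin]
    push_cast
    rfl
  have hG : ∑ w : V → Fin r → Fin M,
      (1 - s) ^ (univ.filter fun j : Fin r => SF N (fun v => w v j) x).card ≤
      Real.exp (-(s * (1 - s) * r / d)) * (Fintype.card (V → Fin r → Fin M) : ℝ) := by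
    rw [hsum, hcard]
    calc (∑ u, g u) ^ r ≤
        ((Fintype.card (V → Fin M) : ℝ) * Real.exp (-(s * (1 - s) / d))) ^ r :=
          pow_le_pow_left₀ hg0 hg1 r
      _ = _ := by
          rw [mul_pow, ← Real.exp_nat_mul, mul_comm]
          congr 2
          ring
  -- Markov
  set k : ℝ := (1 - 4 * s) * r / d with hk
  have hM2 : ((univ.filter fun w : V → Fin r → Fin M =>
      ((univ.filter fun j : Fin r => SF N (fun v => w v j) x).card : ℝ) < k).card : ℝ) *
        Real.exp (k * Real.log (1 - s)) ≤
      ∑ w : V → Fin r → Fin M,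
        (1 - s) ^ (univ.filter fun j : Fin r => SF N (fun v => w v j) x).card := by
    rw [← nsmul_eq_mul, ← sum_const, sum_filter]
    refine sum_le_sum fun w _ => ?_
    split_ifs with h
    · have h2 : (1 - s) ^ (univ.filter fun j : Fin r => SF N (fun v => w v j) x).card =
          Real.exp (((univ.filter fun j : Fin r => SF N (fun v => w v j) x).card : ℝ) *
            Real.log (1 - s)) := by
        rw [Real.exp_nat_mul, Real.exp_log h1s]
      rw [h2]
      apply Real.exp_le_exp.2
      exact mul_le_mul_of_nonpos_right h.le (Real.log_nonpos h1s.le (by linarith))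
    · positivity
  have hfin := hM2.trans hG
  have hexp : Real.exp (-(s * (1 - s) * r / d)) ≤
      Real.exp (-(2 * s ^ 2 * r / d)) * Real.exp (k * Real.log (1 - s)) := by
    rw [← Real.exp_add]
    apply Real.exp_le_exp.2
    have hlog : -(s / (1 - s)) ≤ Real.log (1 - s) := by
      have := Real.one_sub_inv_le_log_of_pos h1s
      have h2 : 1 - (1 - s)⁻¹ = -(s / (1 - s)) := by
        field_simp
        ring
      rw [h2] at this
      exact this
    have hrd : (0 : ℝ) ≤ r / d := by positivity
    have hk0 : 0 ≤ k := by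
      rw [hk]
      have : (0 : ℝ) ≤ 1 - 4 * s := by linarith
      positivity
    have h3 : k * (-(s / (1 - s))) ≤ k * Real.log (1 - s) := mul_le_mul_of_nonneg_left hlog hk0
    have h4 : -((1 - 3 * s) * s) * (r / d) ≤ k * (-(s / (1 - s))) := by
      have h5 : k * (-(s / (1 - s))) = -((1 - 4 * s) / (1 - s) * s) * (r / d) := by
        rw [hk]
        field_simp
      rw [h5]
      apply mul_le_mul_of_nonneg_right _ hrd
      apply neg_le_neg
      apply mul_le_mul_of_nonneg_right _ hs0.le
      rw [div_le_iff₀ h1s]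
      nlinarith [sq_nonneg s]
    have h6 : -(s * (1 - s) * r / d) = -(2 * s ^ 2 * r / d) + -((1 - 3 * s) * s) * (r / d) := by
      ring
    rw [h6]
    linarith
  have hpos : 0 < Real.exp (k * Real.log (1 - s)) := Real.exp_pos _
  have hfin2 : ((univ.filter fun w : V → Fin r → Fin M =>
      ((univ.filter fun j : Fin r => SF N (fun v => w v j) x).card : ℝ) < k).card : ℝ) *
        Real.exp (k * Real.log (1 - s)) ≤
      (Real.exp (-(2 * s ^ 2 * r / d)) * (Fintype.card (V → Fin r → Fin M) : ℝ)) *
        Real.exp (k * Real.log (1 - s)) := by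
    refine hfin.trans ?_
    calc Real.exp (-(s * (1 - s) * r / d)) * (Fintype.card (V → Fin r → Fin M) : ℝ)
        ≤ (Real.exp (-(2 * s ^ 2 * r / d)) * Real.exp (k * Real.log (1 - s))) *
          (Fintype.card (V → Fin r → Fin M) : ℝ) :=
          mul_le_mul_of_nonneg_right hexp (Nat.cast_nonneg _)
      _ = _ := by ring
  exact le_of_mul_le_mul_right hfin2 hpos

end

end P1

/-! ### Second count -/

section P2
/-- If every index picks uniformly one of `L` values and every index of `E` has at most one hit
value, then more than `k` hits happen for few picks. -/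
theorem hits {I : Type*} [Fintype I] [DecidableEq I] (L : ℕ) (hL : 0 < L) (E : Finset I)
    (hit : I → Fin L → Prop) [∀ e, DecidablePred (hit e)]
    (h1 : ∀ e ∈ E, (univ.filter (hit e)).card ≤ 1) (θ : ℝ) (hθ : 0 ≤ θ) (k : ℝ) :
    ((univ.filter fun w : I → Fin L => k < ((E.filter fun e => hit e (w e)).card : ℝ)).card : ℝ) ≤
      Real.exp (θ * E.card / L - k * Real.log (1 + θ)) * (Fintype.card (I → Fin L) : ℝ) := by
  classical
  have hLr : (0 : ℝ) < L := by exact_mod_cast hL
  have h1θ : (0 : ℝ) < 1 + θ := by linarith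
  let g : I → Fin L → ℝ := fun e v => if e ∈ E ∧ hit e v then 1 + θ else 1
  -- the moment generating function
  have hprod : ∀ w : I → Fin L, ∏ e, g e (w e) =
      (1 + θ) ^ (E.filter fun e => hit e (w e)).card := by
    intro w
    simp only [g]
    rw [prod_ite, prod_const_one, mul_one, prod_const]
    congr 2
    ext e
    simp
  have hsum : ∑ w : I → Fin L, (1 + θ) ^ (E.filter fun e => hit e (w e)).card =
      ∏ e, ∑ v, g e v := by
    rw [prod_univ_sum, Fintype.piFinset_univ]
    exact sum_congr rfl fun w _ => (hprod w).symm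
  have hg0 : ∀ e, 0 ≤ ∑ v, g e v := by
    intro e
    refine sum_nonneg fun v _ => ?_
    simp only [g]
    split_ifs
    · exact h1θ.le
    · exact zero_le_one
  have hg1 : ∀ e, ∑ v, g e v ≤ (L : ℝ) * (if e ∈ E then Real.exp (θ / L) else 1) := by
    intro e
    by_cases he : e ∈ E
    · rw [if_pos he]
      have h2 : ∀ v, g e v = 1 + (if hit e v then θ else 0) := by
        intro v
        simp only [g]
        by_cases hv : hit e v <;> simp [he, hv]
      rw [sum_congr rfl fun v _ => h2 v, sum_add_distrib, sum_const, card_univ, Fintype.card_fin,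
        nsmul_eq_mul, mul_one, ← sum_filter, sum_const, nsmul_eq_mul]
      have h3 : ((univ.filter (hit e)).card : ℝ) ≤ 1 := by exact_mod_cast h1 e he
      have h4 : 1 + θ / L ≤ Real.exp (θ / L) := by
        have := Real.add_one_le_exp (θ / L)
        linarith
      have h5 := mul_le_mul_of_nonneg_left h4 hLr.le
      have h6 : (L : ℝ) * (1 + θ / L) = L + θ := by field_simp
      have h7 : ((univ.filter (hit e)).card : ℝ) * θ ≤ 1 * θ := mul_le_mul_of_nonneg_right h3 hθ
      linarith
    · rw [if_neg he]
      have h2 : ∀ v, g e v = 1 := by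
        intro v
        simp only [g]
        simp [he]
      rw [sum_congr rfl fun v _ => h2 v, sum_const, card_univ, Fintype.card_fin, nsmul_eq_mul]
  have hG : ∑ w : I → Fin L, (1 + θ) ^ (E.filter fun e => hit e (w e)).card ≤
      Real.exp (θ * E.card / L) * (Fintype.card (I → Fin L) : ℝ) := by
    rw [hsum]
    calc ∏ e, ∑ v, g e v ≤ ∏ e : I, ((L : ℝ) * (if e ∈ E then Real.exp (θ / L) else 1)) :=
          prod_le_prod (fun e _ => hg0 e) (fun e _ => hg1 e)
      _ = (L : ℝ) ^ (Fintype.card I) * Real.exp (θ / L) ^ E.card := by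
          rw [prod_mul_distrib, prod_const, card_univ]
          congr 1
          rw [prod_ite_mem, univ_inter, prod_const]
      _ = _ := by
          rw [← Real.exp_nat_mul]
          simp only [Fintype.card_fun, Fintype.card_fin, Nat.cast_pow]
          rw [mul_comm]
          congr 2
          ring
  -- Markov
  have hM : ((univ.filter fun w : I → Fin L =>
      k < ((E.filter fun e => hit e (w e)).card : ℝ)).card : ℝ) * Real.exp (k * Real.log (1 + θ)) ≤
      ∑ w : I → Fin L, (1 + θ) ^ (E.filter fun e => hit e (w e)).card := by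
    rw [← nsmul_eq_mul, ← sum_const, sum_filter]
    refine sum_le_sum fun w _ => ?_
    split_ifs with h
    · have h2 : (1 + θ) ^ (E.filter fun e => hit e (w e)).card =
          Real.exp (((E.filter fun e => hit e (w e)).card : ℝ) * Real.log (1 + θ)) := by
        rw [Real.exp_nat_mul, Real.exp_log h1θ]
      rw [h2]
      apply Real.exp_le_exp.2
      exact mul_le_mul_of_nonneg_right h.le (Real.log_nonneg (by linarith))
    · positivity
  have hfin := hM.trans hG
  rw [Real.exp_sub]
  rw [div_mul_eq_mul_div, le_div_iff₀ (Real.exp_pos _)]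
  exact hfin

end P2

/-! ### The stage lemma -/

section Stage
/-- Greedy colouring along an injective rank function. -/
lemma greedy {Y : Type*} [DecidableEq Y] [Fintype Y] (a : ℕ) (r : Y → ℕ)
    (hr : Function.Injective r) (P : Y → Prop) (conf : Y → Y → Prop)
    (hs : ∀ y z, conf y z → conf z y)
    (h : ∀ y, P y → ∃ T : Finset Y, T.card < a ∧ ∀ z, r z < r y → conf y z → z ∈ T) :
    ∃ c : Y → ℕ, (∀ y, P y → c y < a) ∧ ∀ y z, P y → P z → y ≠ z → conf y z → c y ≠ c z := by
  have key : ∀ m : ℕ, ∃ c : Y → ℕ, (∀ y, P y → r y < m → c y < a) ∧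
      ∀ y z, P y → P z → r y < m → r z < m → y ≠ z → conf y z → c y ≠ c z := by
    intro m
    induction m with
    | zero => exact ⟨fun _ => 0, fun y _ hy => absurd hy (Nat.not_lt_zero _),
        fun y _ _ _ hy => absurd hy (Nat.not_lt_zero _)⟩
    | succ m ih =>
      obtain ⟨c, hc1, hc2⟩ := ih
      by_cases hex : ∃ y0, P y0 ∧ r y0 = m
      · obtain ⟨y0, hP0, hy0⟩ := hex
        obtain ⟨T, hT, hTm⟩ := h y0 hP0
        have hlt : (T.image c).card < (range a).card := by
          rw [card_range]; exact lt_of_le_of_lt card_image_le hT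
        obtain ⟨k, hk, hkT⟩ := exists_mem_notMem_of_card_lt_card hlt
        rw [mem_range] at hk
        have hne : ∀ y, r y < m → y ≠ y0 := by
          rintro y hy rfl
          omega
        have heq : ∀ y, r y < m + 1 → y ≠ y0 → r y < m := by
          intro y hy hyne
          rcases Nat.lt_or_ge (r y) m with h1 | h1
          · exact h1
          · exact absurd (hr (by omega : r y = r y0)) hyne
        have hnew : ∀ z, r z < m → conf y0 z → k ≠ c z := by
          intro z hz hcz hkz
          exact hkT (mem_image.2 ⟨z, hTm z (by omega) hcz, hkz.symm⟩)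
        refine ⟨Function.update c y0 k, ?_, ?_⟩
        · intro y hP hy
          by_cases hyy : y = y0
          · subst hyy; rw [Function.update_self]; exact hk
          · rw [Function.update_of_ne hyy]; exact hc1 y hP (heq y hy hyy)
        · intro y z hPy hPz hy hz hyz hconf
          by_cases hyy : y = y0
          · subst hyy
            have hzy : z ≠ y := fun h => hyz h.symm
            rw [Function.update_self, Function.update_of_ne hzy]
            exact hnew z (heq z hz hzy) hconf
          · by_cases hzz : z = y0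
            · subst hzz
              rw [Function.update_self, Function.update_of_ne hyy]
              exact (hnew y (heq y hy hyy) (hs _ _ hconf)).symm
            · rw [Function.update_of_ne hyy, Function.update_of_ne hzz]
              exact hc2 y z hPy hPz (heq y hy hyy) (heq z hz hzz) hyz hconf
      · have heq : ∀ y, P y → r y < m + 1 → r y < m := by
          intro y hP hy
          rcases Nat.lt_or_ge (r y) m with h1 | h1
          · exact h1
          · exact absurd ⟨y, hP, by omega⟩ hex
        exact ⟨c, fun y hP hy => hc1 y hP (heq y hP hy), fun y z hPy hPz hy hz =>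
          hc2 y z hPy hPz (heq y hPy hy) (heq z hPz hz)⟩
  obtain ⟨m, hm⟩ : ∃ m, ∀ y, r y < m := by
    refine ⟨(univ.sup r) + 1, fun y => ?_⟩
    exact Nat.lt_succ_of_le (le_sup (mem_univ y))
  obtain ⟨c, hc1, hc2⟩ := key m
  exact ⟨c, fun y hP => hc1 y hP (hm y), fun y z hPy hPz => hc2 y z hPy hPz (hm y) (hm z)⟩

section
variable {V : Type*} [Fintype V] [DecidableEq V] (G : SimpleGraph V)

/-- One stage. -/
lemma one_stage (A : Set V) (hbip : ∀ u v, G.Adj u v → (u ∈ A ↔ v ∉ A)) {r M : ℕ}
    (t : V → Fin r → Fin M) (p : V → V → Fin r)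
    (hp : ∀ x y, G.Adj x y → y ∉ A → ∀ z, G.Adj z y → z ≠ x → t x (p x y) < t z (p x y))
    (D : ℕ)
    (hD : ∀ x ∈ A, ∀ j, ∃ T : Finset V, T.card ≤ D ∧
      ∀ y, G.Adj x y → (∃ x', G.Adj x' y ∧ p x' y = j) → y ∈ T) (j : Fin r) :
    ∃ c : V → ℕ, (∀ x y, G.Adj x y → y ∉ A → p x y = j → c y < D) ∧
      ∀ x y x' y', G.Adj x y → G.Adj x' y' → y ∉ A → y' ∉ A → p x y = j → p x' y' = j →
        (x ≠ x' ∨ y ≠ y') → (G.Adj x y' ∨ G.Adj x' y) → c y ≠ c y' := by
  classical
  have huniq : ∀ x x' y, G.Adj x y → G.Adj x' y → y ∉ A → p x y = j → p x' y = j → x = x' := by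
    intro x x' y h h' hy hj hj'
    by_contra hne
    have h1 := hp x y h hy x' h' (fun h => hne h.symm)
    have h2 := hp x' y h' hy x h hne
    rw [hj] at h1
    rw [hj'] at h2
    exact lt_asymm h1 h2
  have hf : ∃ f : V → V, ∀ y, (∃ x, G.Adj x y ∧ p x y = j) → G.Adj (f y) y ∧ p (f y) y = j := by
    refine ⟨fun y => if h : ∃ x, G.Adj x y ∧ p x y = j then h.choose else y, fun y hy => ?_⟩
    simp only
    rw [dif_pos hy]
    exact hy.choose_spec
  obtain ⟨f, hf⟩ := hf
  have hff : ∀ x y, G.Adj x y → y ∉ A → p x y = j → f y = x := fun x y h hy hj =>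
    huniq _ _ y (hf y ⟨x, h, hj⟩).1 h hy (hf y ⟨x, h, hj⟩).2 hj
  let σ := Fintype.equivFin V
  obtain ⟨c, hc1, hc2⟩ := greedy (Y := V) D (fun y => (t (f y) j).val * Fintype.card V + (σ y).val)
    (by
      intro y z hyz
      simp only at hyz
      have h1 : (σ y).val < Fintype.card V := (σ y).isLt
      have h2 : (σ z).val < Fintype.card V := (σ z).isLt
      have h3 : (σ y).val = (σ z).val := by
        have := congrArg (· % Fintype.card V) hyz
        simp only [Nat.mul_add_mod_self_right, Nat.mod_eq_of_lt h1, Nat.mod_eq_of_lt h2] at this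
        exact this
      exact σ.injective (Fin.ext h3))
    (fun y => y ∉ A ∧ ∃ x, G.Adj x y ∧ p x y = j)
    (fun y z => (z ∉ A ∧ ∃ x, G.Adj x z ∧ p x z = j) ∧ (y ∉ A ∧ ∃ x, G.Adj x y ∧ p x y = j) ∧
      (G.Adj (f y) z ∨ G.Adj (f z) y))
    (fun y z h => ⟨h.2.1, h.1, h.2.2.symm⟩)
    (by
      rintro y ⟨hyA, hyw⟩
      have h1 := hf y hyw
      have h3 : f y ∈ A := (hbip _ _ h1.1).2 hyA
      obtain ⟨T, hT, hTm⟩ := hD (f y) h3 j
      have hyT : y ∈ T := hTm y h1.1 hyw
      refine ⟨T.erase y, ?_, ?_⟩
      · rw [card_erase_of_mem hyT]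
        have : 0 < T.card := card_pos.2 ⟨y, hyT⟩
        omega
      · rintro z hz ⟨⟨hzA, hzw⟩, _, hadj⟩
        have hne : z ≠ y := by
          rintro rfl
          exact lt_irrefl _ hz
        rw [mem_erase]
        refine ⟨hne, ?_⟩
        rcases hadj with h | h
        · exact hTm z h hzw
        · by_cases heq : f z = f y
          · have h4 := hf z hzw
            rw [heq] at h4
            exact hTm z h4.1 hzw
          · exfalso
            have h5 := hp (f y) y h1.1 hyA (f z) h heq
            rw [h1.2] at h5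
            have h6 : (t (f y) j).val < (t (f z) j).val := h5
            have h7 : ((t (f y) j).val + 1) * Fintype.card V ≤
                (t (f z) j).val * Fintype.card V := Nat.mul_le_mul_right _ h6
            have h8 : (σ y).val < Fintype.card V := (σ y).isLt
            rw [add_mul, one_mul] at h7
            omega)
  refine ⟨c, ?_, ?_⟩
  · intro x y h hy hj
    exact hc1 y ⟨hy, x, h, hj⟩
  · intro x y x' y' h h' hy hy' hj hj' hne hadj
    by_cases hyy : y = y'
    · subst hyy
      rcases hne with hne | hne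
      · exact absurd (huniq _ _ y h h' hy hj hj') hne
      · exact absurd rfl hne
    · refine hc2 y y' ⟨hy, x, h, hj⟩ ⟨hy', x', h', hj'⟩ hyy
        ⟨⟨hy', x', h', hj'⟩, ⟨hy, x, h, hj⟩, ?_⟩
      rw [hff x y h hy hj, hff x' y' h' hy' hj']
      exact hadj

/-- **Stage lemma.** -/
theorem stage (A : Set V) (hbip : ∀ u v, G.Adj u v → (u ∈ A ↔ v ∉ A)) {r M : ℕ}
    (t : V → Fin r → Fin M) (p : V → V → Fin r)
    (hp : ∀ x y, G.Adj x y → y ∉ A → ∀ z, G.Adj z y → z ≠ x → t x (p x y) < t z (p x y))
    (D : ℕ)
    (hD : ∀ x ∈ A, ∀ j, ∃ T : Finset V, T.card ≤ D ∧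
      ∀ y, G.Adj x y → (∃ x', G.Adj x' y ∧ p x' y = j) → y ∈ T) :
    ∃ col : Sym2 V → ℕ, (∀ a b, G.Adj a b → col s(a, b) < r * D) ∧
      ∀ a b c d, G.Adj a b → G.Adj c d → s(a, b) ≠ s(c, d) → (b = c ∨ G.Adj b c) →
        col s(a, b) ≠ col s(c, d) := by
  classical
  choose c hc1 hc2 using one_stage G A hbip t p hp D hD
  let F : V → V → ℕ := fun x y => (p x y).val * D + c (p x y) y
  let g : V → V → ℕ := fun u v =>
    if u ∈ A ∧ v ∉ A then F u v else if v ∈ A ∧ u ∉ A then F v u else 0
  have hg : ∀ u v, g u v = g v u := by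
    intro u v
    simp only [g]
    by_cases hu : u ∈ A <;> by_cases hv : v ∈ A <;> simp [hu, hv]
  let col : Sym2 V → ℕ := Sym2.lift ⟨g, hg⟩
  have hcol : ∀ x y, G.Adj x y → y ∉ A → col s(x, y) = F x y := by
    intro x y h hy
    have hx : x ∈ A := (hbip _ _ h).2 hy
    change g x y = F x y
    simp only [g]
    rw [if_pos ⟨hx, hy⟩]
  have hor : ∀ a b, G.Adj a b → ∃ x y, G.Adj x y ∧ x ∈ A ∧ y ∉ A ∧
      ((a = x ∧ b = y) ∨ (a = y ∧ b = x)) := by
    intro a b h
    by_cases ha : a ∈ A
    · exact ⟨a, b, h, ha, (hbip _ _ h).1 ha, Or.inl ⟨rfl, rfl⟩⟩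
    · refine ⟨b, a, h.symm, ?_, ha, Or.inr ⟨rfl, rfl⟩⟩
      by_contra hb
      exact ha ((hbip _ _ h).2 hb)
  have hsym : ∀ a b x y : V, ((a = x ∧ b = y) ∨ (a = y ∧ b = x)) → s(a, b) = s(x, y) := by
    rintro a b x y (⟨rfl, rfl⟩ | ⟨rfl, rfl⟩)
    · rfl
    · exact Sym2.eq_swap
  refine ⟨col, ?_, ?_⟩
  · intro a b h
    obtain ⟨x, y, hxy, hx, hy, hab⟩ := hor a b h
    rw [hsym a b x y hab, hcol x y hxy hy]
    have h1 := hc1 (p x y) x y hxy hy rfl
    have h2 : (p x y).val + 1 ≤ r := (p x y).isLt
    calc (p x y).val * D + c (p x y) y < (p x y).val * D + D := Nat.add_lt_add_left h1 _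
      _ = ((p x y).val + 1) * D := by ring
      _ ≤ r * D := Nat.mul_le_mul_right _ h2
  · intro a b a' b' h h' hne hadj
    obtain ⟨x, y, hxy, hx, hy, hab⟩ := hor a b h
    obtain ⟨x', y', hxy', hx', hy', hab'⟩ := hor a' b' h'
    rw [hsym a b x y hab, hsym a' b' x' y' hab', hcol x y hxy hy, hcol x' y' hxy' hy']
    intro heq
    simp only [F] at heq
    have h1 := hc1 (p x y) x y hxy hy rfl
    have h2 := hc1 (p x' y') x' y' hxy' hy' rfl
    have hpp : p x y = p x' y' := by
      apply Fin.ext
      have h3 := congrArg (· / D) heq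
      have hD0 : 0 < D := by omega
      simp only [Nat.add_comm _ (c _ _), Nat.add_mul_div_right _ _ hD0,
        Nat.div_eq_of_lt h1, Nat.div_eq_of_lt h2, Nat.zero_add] at h3
      exact h3
    have hcc : c (p x y) y = c (p x y) y' := by
      rw [hpp] at heq ⊢
      omega
    have hne' : x ≠ x' ∨ y ≠ y' := by
      by_contra hcon
      push Not at hcon
      obtain ⟨rfl, rfl⟩ := hcon
      exact hne ((hsym a b x y hab).trans (hsym a' b' x y hab').symm)
    have hadj' : G.Adj x y' ∨ G.Adj x' y := by
      rcases hadj with rfl | hadj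
      · rcases hab with ⟨rfl, rfl⟩ | ⟨rfl, rfl⟩ <;> rcases hab' with ⟨h3, h4⟩ | ⟨h3, h4⟩
        · exact absurd (h3 ▸ hx') hy
        · left; rw [← h3]; exact hxy
        · left; rw [h3]; exact hxy'
        · exact absurd (h3 ▸ hx) hy'
      · rcases hab with ⟨rfl, rfl⟩ | ⟨rfl, rfl⟩ <;> rcases hab' with ⟨rfl, rfl⟩ | ⟨rfl, rfl⟩
        · right; exact hadj.symm
        · exact absurd ((hbip _ _ hadj).2 hy') hy
        · exact absurd hx' ((hbip _ _ hadj).1 hx)
        · left; exact hadj
    exact hc2 (p x y) x y x' y' hxy hxy' hy hy' rfl hpp.symm hne' hadj' hcc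

end

end Stage

/-! ### Two applications of the local lemma -/

section Core
section
variable {V : Type*} [Fintype V] [DecidableEq V] (G : SimpleGraph V) [DecidableRel G.Adj]

/-- First application: level functions such that every edge has many stages. -/
lemma levels (A : Set V) (hbip : ∀ u v, G.Adj u v → (u ∈ A ↔ v ∉ A)) (a b m : ℕ) (ha1 : 1 ≤ a)
    (hb1 : 1 ≤ b) (hA : ∀ v ∈ A, G.degree v ≤ a) (hB : ∀ v, v ∉ A → G.degree v ≤ b)
    (s : ℝ) (hs0 : 0 < s) (hs1 : s ≤ 1 / 4)
    (hC1 : 4 * Real.exp (-(2 * s ^ 2 * m)) * ((a * b * b : ℕ) : ℝ) ≤ 1) :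
    ∃ M : ℕ, ∃ t : V → Fin (b * m) → Fin M, ∀ x y, G.Adj x y → y ∉ A →
      (1 - 4 * s) * m ≤
        ((univ.filter fun j : Fin (b * m) => SF (G.neighborFinset y) (fun v => t v j) x).card : ℝ) := by
  classical
  obtain ⟨M, hM⟩ := exists_nat_ge ((Fintype.card V : ℝ) ^ 2 / s)
  have hMcard : ∀ y, ((G.neighborFinset y).card : ℝ) ^ 2 ≤ s * (M + 1 : ℕ) := by
    intro y
    have h1 : ((G.neighborFinset y).card : ℝ) ≤ Fintype.card V := by
      exact_mod_cast card_le_univ _
    have h2 : ((G.neighborFinset y).card : ℝ) ^ 2 ≤ (Fintype.card V : ℝ) ^ 2 :=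
      pow_le_pow_left₀ (Nat.cast_nonneg _) h1 2
    have h3 : (Fintype.card V : ℝ) ^ 2 ≤ s * M := by
      rw [div_le_iff₀ hs0] at hM
      linarith
    push_cast
    nlinarith
  refine ⟨M + 1, ?_⟩
  let Bad : V × V → (V → Fin (b * m) → Fin (M + 1)) → Prop := fun q w =>
    G.Adj q.1 q.2 ∧ q.2 ∉ A ∧
      ((univ.filter fun j : Fin (b * m) =>
        SF (G.neighborFinset q.2) (fun v => w v j) q.1).card : ℝ) <
        (1 - 4 * s) * (b * m : ℕ) / (G.neighborFinset q.2).card
  let S : V × V → Finset V := fun q =>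
    if G.Adj q.1 q.2 ∧ q.2 ∉ A then G.neighborFinset q.2 else ∅
  have hmemS : ∀ q z, z ∈ S q ↔ (G.Adj q.1 q.2 ∧ q.2 ∉ A) ∧ G.Adj q.2 z := by
    intro q z
    simp only [S]
    split_ifs with h
    · rw [G.mem_neighborFinset]
      exact ⟨fun hz => ⟨h, hz⟩, fun hz => hz.2⟩
    · exact ⟨fun hz => absurd hz (notMem_empty _), fun hz => absurd hz.1 h⟩
  obtain ⟨w, hw⟩ := lll (I := V) (Om := fun _ => Fin (b * m) → Fin (M + 1)) Bad S
    (by
      rintro ⟨x, y⟩ w w' h ⟨hxy, hy, hb⟩
      refine ⟨hxy, hy, ?_⟩
      simp only at hxy hy hb ⊢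
      have hsame : ∀ z, G.Adj y z → w z = w' z := fun z hz => h z ((hmemS _ _).2 ⟨⟨hxy, hy⟩, hz⟩)
      have : (univ.filter fun j : Fin (b * m) => SF (G.neighborFinset y) (fun v => w' v j) x) =
          (univ.filter fun j : Fin (b * m) => SF (G.neighborFinset y) (fun v => w v j) x) := by
        ext j
        simp only [mem_filter, mem_univ, true_and, SF, G.mem_neighborFinset]
        constructor
        · intro h1 z hz hne
          rw [hsame z hz, hsame x hxy.symm]
          exact h1 z hz hne
        · intro h1 z hz hne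
          rw [← hsame z hz, ← hsame x hxy.symm]
          exact h1 z hz hne
      rw [this]
      exact hb)
    (Real.exp (-(2 * s ^ 2 * m))) (Real.exp_pos _).le
    (by
      rintro ⟨x, y⟩
      by_cases hxy : G.Adj x y ∧ y ∉ A
      · have hx : x ∈ G.neighborFinset y := (G.mem_neighborFinset y x).2 hxy.1.symm
        have h1 := firsts (G.neighborFinset y) hx (b * m) (M + 1) s hs0 hs1 (hMcard y)
        have hd0 : (0 : ℝ) < ((G.neighborFinset y).card : ℝ) := by
          exact_mod_cast card_pos.2 ⟨x, hx⟩
        have hdb : ((G.neighborFinset y).card : ℝ) ≤ b := by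
          rw [SimpleGraph.card_neighborFinset_eq_degree]
          exact_mod_cast hB y hxy.2
        have h2 : (univ.filter (Bad (x, y))) ⊆
            (univ.filter fun w : V → Fin (b * m) → Fin (M + 1) =>
              ((univ.filter fun j : Fin (b * m) =>
                SF (G.neighborFinset y) (fun v => w v j) x).card : ℝ) <
                (1 - 4 * s) * (b * m : ℕ) / (G.neighborFinset y).card) := by
          intro w hw
          rw [mem_filter] at hw ⊢
          exact ⟨mem_univ _, hw.2.2.2⟩
        have h3 : ((univ.filter (Bad (x, y))).card : ℝ) ≤ _ :=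
          (Nat.cast_le.2 (card_le_card h2)).trans h1
        refine h3.trans ?_
        apply mul_le_mul_of_nonneg_right _ (Nat.cast_nonneg _)
        apply Real.exp_le_exp.2
        apply neg_le_neg
        rw [le_div_iff₀ hd0]
        push_cast
        have h4 : 2 * s ^ 2 * (m : ℝ) * ((G.neighborFinset y).card : ℝ) ≤ 2 * s ^ 2 * (m : ℝ) * b :=
          mul_le_mul_of_nonneg_left hdb (by positivity)
        linarith
      · have h1 : (univ.filter (Bad (x, y))) = ∅ := by
          rw [filter_eq_empty_iff]
          intro w _ hb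
          exact hxy ⟨hb.1, hb.2.1⟩
        rw [h1, card_empty, Nat.cast_zero]
        positivity)
    (a * b * b)
    (by
      have : 1 ≤ a * b := Nat.mul_pos ha1 hb1
      exact Nat.mul_pos this hb1)
    (by
      rintro ⟨x, y⟩
      by_cases hxy : G.Adj x y ∧ y ∉ A
      · have hsub : (univ.filter fun k' => ¬ Disjoint (S (x, y)) (S k')) ⊆
            (G.neighborFinset y).biUnion fun z => (G.neighborFinset z).biUnion fun y' =>
              if y' ∉ A then (G.neighborFinset y').image fun x' => (x', y') else ∅ := by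
          rintro ⟨x', y'⟩ hk
          rw [mem_filter] at hk
          obtain ⟨z, hz, hz'⟩ := not_disjoint_iff.1 hk.2
          rw [hmemS] at hz hz'
          rw [mem_biUnion]
          refine ⟨z, (G.mem_neighborFinset _ _).2 hz.2, ?_⟩
          rw [mem_biUnion]
          refine ⟨y', (G.mem_neighborFinset _ _).2 hz'.2.symm, ?_⟩
          rw [if_pos hz'.1.2, mem_image]
          exact ⟨x', (G.mem_neighborFinset _ _).2 hz'.1.1.symm, rfl⟩
        refine (card_le_card hsub).trans ?_
        have h1 : ∀ z ∈ G.neighborFinset y, ((G.neighborFinset z).biUnion fun y' =>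
              if y' ∉ A then (G.neighborFinset y').image fun x' => (x', y') else ∅).card ≤
              a * b := by
          intro z hz
          have hzA : z ∈ A := by
            have h2 := (G.mem_neighborFinset _ _).1 hz
            exact (hbip _ _ h2.symm).2 hxy.2
          refine (card_biUnion_le_card_mul _ _ b fun y' _ => ?_).trans ?_
          · by_cases hy' : y' ∈ A
            · rw [if_neg (fun h => h hy'), card_empty]
              exact Nat.zero_le _
            · rw [if_pos hy']
              refine (card_image_le (s := G.neighborFinset y')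
                (f := fun x' => (x', y'))).trans ?_
              rw [SimpleGraph.card_neighborFinset_eq_degree]
              exact hB y' hy'
          · rw [SimpleGraph.card_neighborFinset_eq_degree]
            exact Nat.mul_le_mul_right _ (hA z hzA)
        calc _ ≤ (G.neighborFinset y).card * (a * b) := card_biUnion_le_card_mul _ _ _ h1
          _ ≤ b * (a * b) := by
              rw [SimpleGraph.card_neighborFinset_eq_degree]
              exact Nat.mul_le_mul_right _ (hB y hxy.2)
          _ = a * b * b := by ring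
      · have h1 : (univ.filter fun k' => ¬ Disjoint (S (x, y)) (S k')) = ∅ := by
          rw [filter_eq_empty_iff]
          intro k' _ hd
          apply hd
          simp only [S]
          rw [if_neg hxy]
          exact disjoint_empty_left _
        rw [h1, card_empty]
        exact Nat.zero_le _)
    hC1
  refine ⟨w, fun x y hxy hy => ?_⟩
  by_contra hcon
  push Not at hcon
  refine hw (x, y) ⟨hxy, hy, lt_of_lt_of_le hcon ?_⟩
  have hx : x ∈ G.neighborFinset y := (G.mem_neighborFinset y x).2 hxy.symm
  have hd0 : (0 : ℝ) < ((G.neighborFinset y).card : ℝ) := by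
    exact_mod_cast card_pos.2 ⟨x, hx⟩
  have hdb : ((G.neighborFinset y).card : ℝ) ≤ b := by
    rw [SimpleGraph.card_neighborFinset_eq_degree]
    exact_mod_cast hB y hy
  simp only
  rw [le_div_iff₀ hd0]
  push_cast
  have h5 : 0 ≤ (1 - 4 * s) * (m : ℝ) := by
    have : (0 : ℝ) ≤ 1 - 4 * s := by linarith
    positivity
  have := mul_le_mul_of_nonneg_left hdb h5
  linarith

/-- Second application: stages for the edges. -/
lemma picks (A : Set V) (hbip : ∀ u v, G.Adj u v → (u ∈ A ↔ v ∉ A)) (a b m : ℕ) (ha1 : 1 ≤ a)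
    (hb1 : 1 ≤ b) (hm1 : 1 ≤ m) (hA : ∀ v ∈ A, G.degree v ≤ a) (hB : ∀ v, v ∉ A → G.degree v ≤ b)
    (L : ℕ) (hL : 0 < L) (M : ℕ) (t : V → Fin (b * m) → Fin M)
    (ht : ∀ x y, G.Adj x y → y ∉ A →
      L ≤ (univ.filter fun j : Fin (b * m) => SF (G.neighborFinset y) (fun v => t v j) x).card)
    (θ k : ℝ) (hθ : 0 ≤ θ)
    (hC2 : 4 * Real.exp (θ * a / L - k * Real.log (1 + θ)) * ((a * b * (b * m) : ℕ) : ℝ) ≤ 1) :
    ∃ p : V → V → Fin (b * m),
      (∀ x y, G.Adj x y → y ∉ A → SF (G.neighborFinset y) (fun v => t v (p x y)) x) ∧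
      ∀ x ∈ A, ∀ j,
        ((univ.filter fun y => G.Adj x y ∧ ∃ x', G.Adj x' y ∧ p x' y = j).card : ℝ) ≤ k := by
  classical
  have hr : 0 < b * m := Nat.mul_pos hb1 hm1
  -- injections
  have hφ : ∀ x y, ∃ φ : Fin L → Fin (b * m), G.Adj x y → y ∉ A →
      Function.Injective φ ∧ ∀ i, SF (G.neighborFinset y) (fun v => t v (φ i)) x := by
    intro x y
    by_cases hxy : G.Adj x y ∧ y ∉ A
    · have h1 := ht x y hxy.1 hxy.2
      have h2 : Fintype.card (Fin L) ≤ Fintype.card
          ((univ.filter fun j : Fin (b * m) =>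
            SF (G.neighborFinset y) (fun v => t v j) x) : Finset (Fin (b * m))) := by
        rw [Fintype.card_fin, Fintype.card_coe]
        exact h1
      obtain ⟨f⟩ := Function.Embedding.nonempty_of_card_le h2
      refine ⟨fun i => (f i).1, fun _ _ => ⟨fun i i' h => f.injective (Subtype.ext h), fun i => ?_⟩⟩
      exact (mem_filter.1 (f i).2).2
    · exact ⟨fun _ => ⟨0, hr⟩, fun h h' => absurd ⟨h, h'⟩ hxy⟩
  choose φ hφ using hφ
  let Bad : V × Fin (b * m) → (V × V → Fin L) → Prop := fun q w =>
    q.1 ∈ A ∧ k < ((univ.filter fun y => G.Adj q.1 y ∧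
      ∃ x', G.Adj x' y ∧ φ x' y (w (x', y)) = q.2).card : ℝ)
  let S : V × Fin (b * m) → Finset (V × V) := fun q =>
    univ.filter fun e => q.1 ∈ A ∧ G.Adj q.1 e.2 ∧ G.Adj e.1 e.2
  have hmemS : ∀ q e, e ∈ S q ↔ q.1 ∈ A ∧ G.Adj q.1 e.2 ∧ G.Adj e.1 e.2 := by
    intro q e
    simp [S]
  have : Nonempty (Fin L) := ⟨⟨0, hL⟩⟩
  obtain ⟨w, hw⟩ := lll (I := V × V) (Om := fun _ => Fin L) Bad S
    (by
      rintro ⟨x, j⟩ w w' h ⟨hx, hb⟩
      refine ⟨hx, ?_⟩
      simp only at hx hb ⊢
      have : (univ.filter fun y => G.Adj x y ∧ ∃ x', G.Adj x' y ∧ φ x' y (w' (x', y)) = j) =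
          (univ.filter fun y => G.Adj x y ∧ ∃ x', G.Adj x' y ∧ φ x' y (w (x', y)) = j) := by
        ext y
        simp only [mem_filter, mem_univ, true_and]
        constructor
        · rintro ⟨hxy, x', hx'y, hj⟩
          refine ⟨hxy, x', hx'y, ?_⟩
          rw [h (x', y) ((hmemS _ _).2 ⟨hx, hxy, hx'y⟩)]
          exact hj
        · rintro ⟨hxy, x', hx'y, hj⟩
          refine ⟨hxy, x', hx'y, ?_⟩
          rw [← h (x', y) ((hmemS _ _).2 ⟨hx, hxy, hx'y⟩)]
          exact hj
      rw [this]
      exact hb)
    (Real.exp (θ * a / L - k * Real.log (1 + θ))) (Real.exp_pos _).le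
    (by
      rintro ⟨x, j⟩
      by_cases hx : x ∈ A
      · -- the relevant edges
        let E : Finset (V × V) := univ.filter fun e => G.Adj x e.2 ∧ G.Adj e.1 e.2 ∧
          SF (G.neighborFinset e.2) (fun v => t v j) e.1
        have hmemE : ∀ e, e ∈ E ↔ G.Adj x e.2 ∧ G.Adj e.1 e.2 ∧
            SF (G.neighborFinset e.2) (fun v => t v j) e.1 := by
          intro e
          simp [E]
        have hyA : ∀ y, G.Adj x y → y ∉ A := fun y h => (hbip _ _ h).1 hx
        have hEcard : E.card ≤ a := by
          have h1 : E.card ≤ (G.neighborFinset x).card := by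
            apply card_le_card_of_injOn (fun e => e.2)
            · intro e he
              exact (G.mem_neighborFinset _ _).2 ((hmemE e).1 he).1
            · rintro ⟨x1, y1⟩ h1 ⟨x2, y2⟩ h2 h12
              simp only at h12
              subst h12
              have h1' := (hmemE _).1 h1
              have h2' := (hmemE _).1 h2
              simp only at h1' h2'
              have hxx : x1 = x2 := by
                by_contra hne
                have h3 := h1'.2.2 x2 ((G.mem_neighborFinset _ _).2 h2'.2.1.symm)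
                  (fun h => hne h.symm)
                have h4 := h2'.2.2 x1 ((G.mem_neighborFinset _ _).2 h1'.2.1.symm) hne
                exact lt_asymm h3 h4
              rw [hxx]
          rw [SimpleGraph.card_neighborFinset_eq_degree] at h1
          exact h1.trans (hA x hx)
        have h1 := hits L hL E (fun e v => φ e.1 e.2 v = j)
          (by
            intro e he
            have h2 := (hmemE e).1 he
            have h3 := (hφ e.1 e.2 h2.2.1 (hyA _ h2.1)).1
            rw [card_le_one]
            intro v hv v' hv'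
            rw [mem_filter] at hv hv'
            exact h3 (hv.2.trans hv'.2.symm)) θ hθ k
        have h2 : (univ.filter (Bad (x, j))) ⊆
            (univ.filter fun w : V × V → Fin L =>
              k < ((E.filter fun e => φ e.1 e.2 (w e) = j).card : ℝ)) := by
          intro w hw
          rw [mem_filter] at hw ⊢
          refine ⟨mem_univ _, lt_of_lt_of_le hw.2.2 ?_⟩
          simp only
          have h3 : (univ.filter fun y => G.Adj x y ∧
              ∃ x', G.Adj x' y ∧ φ x' y (w (x', y)) = j) ⊆
              (E.filter fun e => φ e.1 e.2 (w e) = j).image fun e => e.2 := by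
            intro y hy
            rw [mem_filter] at hy
            obtain ⟨_, hxy, x', hx'y, hj⟩ := hy
            rw [mem_image]
            refine ⟨(x', y), mem_filter.2 ⟨(hmemE _).2 ⟨hxy, hx'y, ?_⟩, hj⟩, rfl⟩
            have h4 := (hφ x' y hx'y (hyA y hxy)).2 (w (x', y))
            rw [hj] at h4
            exact h4
          exact_mod_cast (card_le_card h3).trans card_image_le
        have h3 : ((univ.filter (Bad (x, j))).card : ℝ) ≤ _ :=
          (Nat.cast_le.2 (card_le_card h2)).trans h1
        refine h3.trans ?_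
        apply mul_le_mul_of_nonneg_right _ (Nat.cast_nonneg _)
        apply Real.exp_le_exp.2
        have hLr : (0 : ℝ) < L := by exact_mod_cast hL
        have h4 : θ * E.card / L ≤ θ * a / L := by
          apply div_le_div_of_nonneg_right _ hLr.le
          apply mul_le_mul_of_nonneg_left _ hθ
          exact_mod_cast hEcard
        linarith
      · have h1 : (univ.filter (Bad (x, j))) = ∅ := by
          rw [filter_eq_empty_iff]
          intro w _ hb
          exact hx hb.1
        rw [h1, card_empty, Nat.cast_zero]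
        positivity)
    (a * b * (b * m))
    (by
      have : 1 ≤ a * b := Nat.mul_pos ha1 hb1
      exact Nat.mul_pos this hr)
    (by
      rintro ⟨x, j⟩
      by_cases hx : x ∈ A
      · have hsub : (univ.filter fun k' => ¬ Disjoint (S (x, j)) (S k')) ⊆
            (G.neighborFinset x).biUnion fun y => (G.neighborFinset y) ×ˢ univ := by
          rintro ⟨x', j'⟩ hk
          rw [mem_filter] at hk
          obtain ⟨e, he, he'⟩ := not_disjoint_iff.1 hk.2
          rw [hmemS] at he he'
          rw [mem_biUnion]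
          refine ⟨e.2, (G.mem_neighborFinset _ _).2 he.2.1, ?_⟩
          rw [mem_product]
          exact ⟨(G.mem_neighborFinset _ _).2 he'.2.1.symm, mem_univ _⟩
        refine (card_le_card hsub).trans ?_
        calc _ ≤ (G.neighborFinset x).card * (b * (b * m)) := by
              apply card_biUnion_le_card_mul
              intro y hy
              rw [card_product, card_univ, Fintype.card_fin,
                SimpleGraph.card_neighborFinset_eq_degree]
              apply Nat.mul_le_mul_right
              exact hB y ((hbip _ _ ((G.mem_neighborFinset _ _).1 hy)).1 hx)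
          _ ≤ a * (b * (b * m)) := by
              rw [SimpleGraph.card_neighborFinset_eq_degree]
              exact Nat.mul_le_mul_right _ (hA x hx)
          _ = a * b * (b * m) := by ring
      · have h1 : (univ.filter fun k' => ¬ Disjoint (S (x, j)) (S k')) = ∅ := by
          rw [filter_eq_empty_iff]
          intro k' _ hd
          apply hd
          rw [disjoint_left]
          intro e he
          exact absurd ((hmemS _ _).1 he).1 hx
        rw [h1, card_empty]
        exact Nat.zero_le _)
    hC2
  refine ⟨fun x y => φ x y (w (x, y)), fun x y hxy hy => (hφ x y hxy hy).2 _, fun x hx j => ?_⟩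
  by_contra hcon
  push Not at hcon
  exact hw (x, j) ⟨hx, hcon⟩

end

end Core

/-! ### Assembly -/

section Final
section
variable {V : Type*} [Fintype V] [DecidableEq V] (G : SimpleGraph V) [DecidableRel G.Adj]

/-- The greedy bound `2ab - 1`. -/
lemma greedy_bound (A : Set V) (hbip : ∀ u v, G.Adj u v → (u ∈ A ↔ v ∉ A)) (a b : ℕ)
    (hA : ∀ v ∈ A, G.degree v ≤ a) (hB : ∀ v, v ∉ A → G.degree v ≤ b) :
    ∃ col : Sym2 V → ℕ, (∀ u v, G.Adj u v → col s(u, v) < 2 * a * b - 1) ∧
      ∀ u v c d, G.Adj u v → G.Adj c d → s(u, v) ≠ s(c, d) → (v = c ∨ G.Adj v c) →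
        col s(u, v) ≠ col s(c, d) := by
  classical
  let e0 := Fintype.equivFin (Sym2 V)
  obtain ⟨col, hc1, hc2⟩ := greedy (Y := Sym2 V) (2 * a * b - 1) (fun e => (e0 e).val)
    (fun e f h => e0.injective (Fin.ext h)) (fun e => e ∈ G.edgeSet)
    (fun e f => e ∈ G.edgeSet ∧ f ∈ G.edgeSet ∧
      ∃ p q c d, e = s(p, q) ∧ f = s(c, d) ∧ (q = c ∨ G.Adj q c))
    (by
      rintro e f ⟨he, hf, p, q, c, d, rfl, rfl, h⟩
      refine ⟨hf, he, d, c, q, p, Sym2.eq_swap, Sym2.eq_swap, ?_⟩
      rcases h with h | h
      · exact Or.inl h.symm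
      · exact Or.inr h.symm)
    (by
      intro e he
      obtain ⟨x, y, hexy, hxA, hyA⟩ : ∃ x y, e = s(x, y) ∧ x ∈ A ∧ y ∉ A := by
        induction e using Sym2.inductionOn with
        | hf u v =>
          have hadj : G.Adj u v := he
          by_cases hu : u ∈ A
          · exact ⟨u, v, rfl, hu, (hbip _ _ hadj).1 hu⟩
          · refine ⟨v, u, Sym2.eq_swap, ?_, hu⟩
            by_contra hv
            exact hu ((hbip _ _ hadj).2 hv)
      subst hexy
      have hadj : G.Adj x y := he
      let U : V → Finset (Sym2 V) := fun z =>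
        (G.neighborFinset z).biUnion fun c => (G.neighborFinset c).image fun d => s(c, d)
      have hmemU : ∀ z c d, G.Adj z c → G.Adj c d → s(c, d) ∈ U z := by
        intro z c d h1 h2
        rw [mem_biUnion]
        exact ⟨c, (G.mem_neighborFinset _ _).2 h1,
          mem_image.2 ⟨d, (G.mem_neighborFinset _ _).2 h2, rfl⟩⟩
      have hU : ∀ z (n : ℕ), (∀ c, G.Adj z c → G.degree c ≤ n) → (U z).card ≤ G.degree z * n := by
        intro z n h
        rw [← SimpleGraph.card_neighborFinset_eq_degree]
        apply card_biUnion_le_card_mul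
        intro c hc
        refine card_image_le.trans ?_
        rw [SimpleGraph.card_neighborFinset_eq_degree]
        exact h c ((G.mem_neighborFinset _ _).1 hc)
      have hUx : (U x).card ≤ a * b := by
        refine (hU x b fun c hc => hB c ((hbip _ _ hc).1 hxA)).trans ?_
        exact Nat.mul_le_mul_right _ (hA x hxA)
      have hUy : (U y).card ≤ a * b := by
        refine (hU y a fun c hc => hA c ((hbip _ _ hc.symm).2 hyA)).trans ?_
        rw [mul_comm a b]
        exact Nat.mul_le_mul_right _ (hB y hyA)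
      have hex : s(x, y) ∈ U x := by
        have := hmemU x y x hadj hadj.symm
        rwa [Sym2.eq_swap] at this
      have hey : s(x, y) ∈ U y := hmemU y x y hadj.symm hadj
      refine ⟨(U x ∪ U y).erase s(x, y), ?_, ?_⟩
      · rw [card_erase_of_mem (mem_union_left _ hex)]
        have h1 := card_union_add_card_inter (U x) (U y)
        have h2 : 0 < (U x ∩ U y).card := card_pos.2 ⟨_, mem_inter.2 ⟨hex, hey⟩⟩
        have h3 : 0 < (U x ∪ U y).card := card_pos.2 ⟨_, mem_union_left _ hex⟩
        have h4 : 2 * a * b = a * b + a * b := by ring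
        omega
      · rintro z hz ⟨_, hzE, p, q, c, d, hpq, rfl, h⟩
        have hne : s(c, d) ≠ s(x, y) := by
          intro h
          rw [h] at hz
          exact lt_irrefl _ hz
        have hcd : G.Adj c d := hzE
        rw [mem_erase, mem_union]
        refine ⟨hne, ?_⟩
        have hq : q = x ∨ q = y := by
          have : q ∈ s(x, y) := by rw [hpq]; exact Sym2.mem_mk_right _ _
          exact Sym2.mem_iff.1 this
        have hqc : ∀ q, (q = c ∨ G.Adj q c) → s(c, d) ∈ U q := by
          rintro q (rfl | h)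
          · have := hmemU q d q hcd hcd.symm
            rwa [Sym2.eq_swap] at this
          · exact hmemU q c d h hcd
        rcases hq with rfl | rfl
        · exact Or.inl (hqc _ h)
        · exact Or.inr (hqc _ h))
  refine ⟨col, fun u v h => hc1 _ h, fun u v c d h h' hne hadj => ?_⟩
  exact hc2 _ _ h h' hne ⟨h, h', u, v, c, d, rfl, rfl, hadj⟩

/-- The colouring for given parameters. -/
lemma core (A : Set V) (hbip : ∀ u v, G.Adj u v → (u ∈ A ↔ v ∉ A)) (a b m : ℕ) (ha1 : 1 ≤ a)
    (hb1 : 1 ≤ b) (hba : b ≤ a) (hm1 : 1 ≤ m) (hma : m ≤ a)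
    (hA : ∀ v ∈ A, G.degree v ≤ a) (hB : ∀ v, v ∉ A → G.degree v ≤ b)
    (ε : ℝ) (hε0 : 0 < ε) (hε1 : ε ≤ 1)
    (h1 : 3 * Real.log a + 2 ≤ ε ^ 2 * m / 128)
    (h2 : 4 * Real.log a + 2 ≤ ε ^ 2 * a / (24 * m)) :
    ∃ col : Sym2 V → ℕ, (∀ u v, G.Adj u v → (col s(u, v) : ℝ) < (1 + ε) * (a * b)) ∧
      ∀ u v c d, G.Adj u v → G.Adj c d → s(u, v) ≠ s(c, d) → (v = c ∨ G.Adj v c) →
        col s(u, v) ≠ col s(c, d) := by
  classical
  have har : (1 : ℝ) ≤ a := by exact_mod_cast ha1
  have hbr : (1 : ℝ) ≤ b := by exact_mod_cast hb1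
  have hmr : (1 : ℝ) ≤ m := by exact_mod_cast hm1
  have hbar : (b : ℝ) ≤ a := by exact_mod_cast hba
  have hmar : (m : ℝ) ≤ a := by exact_mod_cast hma
  have ha0 : (0 : ℝ) < a := by linarith
  have he2 : (4 : ℝ) * Real.exp (-2) ≤ 1 := by
    have h3 : (4 : ℝ) ≤ Real.exp 2 := by
      have := Real.add_one_le_exp (1 : ℝ)
      have h4 : Real.exp 2 = Real.exp 1 * Real.exp 1 := by
        rw [← Real.exp_add]; norm_num
      rw [h4]
      nlinarith
    rw [Real.exp_neg]
    rw [← div_eq_mul_inv, div_le_one (Real.exp_pos _)]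
    exact h3
  -- first local lemma
  obtain ⟨M, t, ht⟩ := levels G A hbip a b m ha1 hb1 hA hB (ε / 16) (by positivity)
    (by linarith)
    (by
      have h3 : Real.exp (-(2 * (ε / 16) ^ 2 * m)) ≤ Real.exp (-2) * ((a : ℝ) ^ 3)⁻¹ := by
        have h4 : Real.exp (-2) * ((a : ℝ) ^ 3)⁻¹ = Real.exp (-(3 * Real.log a + 2)) := by
          rw [show -(3 * Real.log a + 2) = -2 + -(3 * Real.log a) by ring, Real.exp_add,
            Real.exp_neg (3 * Real.log a)]
          congr 2
          rw [show (3 : ℝ) * Real.log a = ((3 : ℕ) : ℝ) * Real.log a by norm_num,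
            Real.exp_nat_mul, Real.exp_log ha0]
        rw [h4]
        apply Real.exp_le_exp.2
        apply neg_le_neg
        calc 3 * Real.log a + 2 ≤ ε ^ 2 * m / 128 := h1
          _ = 2 * (ε / 16) ^ 2 * m := by ring
      have h5 : ((a * b * b : ℕ) : ℝ) ≤ (a : ℝ) ^ 3 := by
        push_cast
        have : (a : ℝ) * b * b ≤ a * a * a := by
          apply mul_le_mul _ hbar (by linarith) (by positivity)
          exact mul_le_mul_of_nonneg_left hbar ha0.le
        calc (a : ℝ) * b * b ≤ a * a * a := this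
          _ = a ^ 3 := by ring
      calc 4 * Real.exp (-(2 * (ε / 16) ^ 2 * m)) * ((a * b * b : ℕ) : ℝ)
          ≤ 4 * (Real.exp (-2) * ((a : ℝ) ^ 3)⁻¹) * (a : ℝ) ^ 3 := by
            apply mul_le_mul _ h5 (Nat.cast_nonneg _) (by positivity)
            exact mul_le_mul_of_nonneg_left h3 (by norm_num)
        _ = 4 * Real.exp (-2) := by field_simp
        _ ≤ 1 := he2)
  have hs4 : 1 - 4 * (ε / 16) = 1 - ε / 4 := by ring
  rw [hs4] at ht
  have hpos4 : (0 : ℝ) < 1 - ε / 4 := by linarith
  -- the parameters of the second local lemma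
  set L : ℕ := ⌈(1 - ε / 4) * (m : ℝ)⌉₊ with hLdef
  have hLge : (1 - ε / 4) * (m : ℝ) ≤ L := Nat.le_ceil _
  have hL0 : 0 < L := Nat.ceil_pos.2 (by positivity)
  have hLr : (0 : ℝ) < L := by exact_mod_cast hL0
  set k : ℝ := (1 + ε) * a / m with hkdef
  have hm0 : (0 : ℝ) < m := by linarith
  obtain ⟨p, hp1, hp2⟩ := picks G A hbip a b m ha1 hb1 hm1 hA hB L hL0 M t
    (by
      intro x y hxy hy
      exact Nat.ceil_le.2 (ht x y hxy hy))
    (ε / 4) k (by positivity)
    (by
      have hexp : ε / 4 * a / L - k * Real.log (1 + ε / 4) ≤ -(4 * Real.log a + 2) := by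
        have h3 : ε / 4 * a / L ≤ (ε / 4) * (1 + ε / 3) * (a / m) := by
          rw [div_le_iff₀ hLr]
          have h4 : (1 : ℝ) ≤ (1 + ε / 3) * (1 - ε / 4) := by nlinarith
          have h5 : (a : ℝ) ≤ (1 + ε / 3) * (a / m) * L := by
            calc (a : ℝ) = 1 * a := by ring
              _ ≤ ((1 + ε / 3) * (1 - ε / 4)) * a := mul_le_mul_of_nonneg_right h4 ha0.le
              _ = (1 + ε / 3) * (a / m) * ((1 - ε / 4) * m) := by field_simp
              _ ≤ (1 + ε / 3) * (a / m) * L := by
                  apply mul_le_mul_of_nonneg_left hLge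
                  positivity
          calc ε / 4 * a ≤ ε / 4 * ((1 + ε / 3) * (a / m) * L) :=
                mul_le_mul_of_nonneg_left h5 (by positivity)
            _ = _ := by ring
        have h6 : (ε / 4) * (1 + ε / 2) * (a / m) ≤ k * Real.log (1 + ε / 4) := by
          have h7 : 2 * (ε / 4) / (ε / 4 + 2) ≤ Real.log (1 + ε / 4) :=
            Real.le_log_one_add_of_nonneg (by positivity)
          have hk0 : 0 ≤ k := by rw [hkdef]; positivity
          have h8 := mul_le_mul_of_nonneg_left h7 hk0
          refine le_trans ?_ h8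
          rw [hkdef]
          have h9 : (1 + ε) * a / m * (2 * (ε / 4) / (ε / 4 + 2)) =
              ((1 + ε) * (2 * (ε / 4) / (ε / 4 + 2))) * (a / m) := by ring
          rw [h9]
          apply mul_le_mul_of_nonneg_right _ (by positivity)
          rw [← mul_div_assoc, le_div_iff₀ (by positivity)]
          nlinarith [mul_pos hε0 hε0, mul_pos (mul_pos hε0 hε0) hε0,
            mul_nonneg hε0.le (sub_nonneg.2 hε1),
            mul_nonneg (mul_nonneg hε0.le hε0.le) (sub_nonneg.2 hε1)]
        have h10 : ε ^ 2 * a / (24 * m) =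
            (ε / 4) * (1 + ε / 2) * (a / m) - (ε / 4) * (1 + ε / 3) * (a / m) := by
          field_simp
          ring
        linarith
      have h3 : Real.exp (ε / 4 * a / L - k * Real.log (1 + ε / 4)) ≤
          Real.exp (-2) * ((a : ℝ) ^ 4)⁻¹ := by
        have h4 : Real.exp (-2) * ((a : ℝ) ^ 4)⁻¹ = Real.exp (-(4 * Real.log a + 2)) := by
          rw [show -(4 * Real.log a + 2) = -2 + -(4 * Real.log a) by ring, Real.exp_add,
            Real.exp_neg (4 * Real.log a)]
          congr 2
          rw [show (4 : ℝ) * Real.log a = ((4 : ℕ) : ℝ) * Real.log a by norm_num,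
            Real.exp_nat_mul, Real.exp_log ha0]
        rw [h4]
        exact Real.exp_le_exp.2 hexp
      have h5 : ((a * b * (b * m) : ℕ) : ℝ) ≤ (a : ℝ) ^ 4 := by
        push_cast
        have h6 : (a : ℝ) * b ≤ a * a := mul_le_mul_of_nonneg_left hbar ha0.le
        have h7 : (b : ℝ) * m ≤ a * a := mul_le_mul hbar hmar (by linarith) ha0.le
        calc (a : ℝ) * b * (b * m) ≤ (a * a) * (a * a) :=
              mul_le_mul h6 h7 (by positivity) (by positivity)
          _ = a ^ 4 := by ring
      calc 4 * Real.exp (ε / 4 * a / L - k * Real.log (1 + ε / 4)) *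
            ((a * b * (b * m) : ℕ) : ℝ)
          ≤ 4 * (Real.exp (-2) * ((a : ℝ) ^ 4)⁻¹) * (a : ℝ) ^ 4 := by
            apply mul_le_mul _ h5 (Nat.cast_nonneg _) (by positivity)
            exact mul_le_mul_of_nonneg_left h3 (by norm_num)
        _ = 4 * Real.exp (-2) := by field_simp
        _ ≤ 1 := he2)
  have hk0 : 0 ≤ k := by rw [hkdef]; positivity
  -- the stage lemma
  obtain ⟨col, hc1, hc2⟩ := stage G A hbip t p
    (by
      intro x y hxy hy z hz hne
      exact hp1 x y hxy hy z ((G.mem_neighborFinset _ _).2 hz.symm) hne)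
    ⌊k⌋₊
    (by
      intro x hx j
      refine ⟨univ.filter fun y => G.Adj x y ∧ ∃ x', G.Adj x' y ∧ p x' y = j,
        Nat.le_floor (hp2 x hx j), fun y hxy h => mem_filter.2 ⟨mem_univ _, hxy, h⟩⟩)
  refine ⟨col, fun u v h => ?_, hc2⟩
  have h3 : (col s(u, v) : ℝ) < ((b * m * ⌊k⌋₊ : ℕ) : ℝ) := by exact_mod_cast hc1 u v h
  refine h3.trans_le ?_
  push_cast
  have h4 : (⌊k⌋₊ : ℝ) ≤ k := Nat.floor_le hk0
  calc (b : ℝ) * m * (⌊k⌋₊ : ℝ) ≤ b * m * k := mul_le_mul_of_nonneg_left h4 (by positivity)
    _ = (1 + ε) * (a * b) := by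
        rw [hkdef]
        field_simp

/-- One orientation. -/
lemma oriented (A : Set V) (hbip : ∀ u v, G.Adj u v → (u ∈ A ↔ v ∉ A)) (a b : ℕ) (hba : b ≤ a)
    (hA : ∀ v ∈ A, G.degree v ≤ a) (hB : ∀ v, v ∉ A → G.degree v ≤ b) :
    ∃ col : Sym2 V → ℕ, (∀ u v, G.Adj u v → (col s(u, v) : ℝ) <
        (1 + 18 * Real.sqrt (Real.log a) / (a : ℝ) ^ (1 / 4 : ℝ)) * (a * b)) ∧
      ∀ u v c d, G.Adj u v → G.Adj c d → s(u, v) ≠ s(c, d) → (v = c ∨ G.Adj v c) →
        col s(u, v) ≠ col s(c, d) := by
  classical
  by_cases hedge : ∃ u v, G.Adj u v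
  swap
  · push Not at hedge
    exact ⟨fun _ => 0, fun u v h => absurd h (hedge u v), fun u v _ _ h => absurd h (hedge u v)⟩
  have hb1 : 1 ≤ b := by
    obtain ⟨u, v, h⟩ := hedge
    by_cases hv : v ∈ A
    · have hu : u ∉ A := fun hu => ((hbip _ _ h).1 hu) hv
      have h1 : 0 < G.degree u := (G.degree_pos_iff_exists_adj _).2 ⟨v, h⟩
      exact h1.trans_le (hB u hu)
    · have h1 : 0 < G.degree v := (G.degree_pos_iff_exists_adj _).2 ⟨u, h.symm⟩
      exact h1.trans_le (hB v hv)
  have ha1 : 1 ≤ a := hb1.trans hba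
  have har : (1 : ℝ) ≤ a := by exact_mod_cast ha1
  have hbr : (1 : ℝ) ≤ b := by exact_mod_cast hb1
  have ha0 : (0 : ℝ) < a := by linarith
  set l : ℝ := Real.log a with hl
  have hl0 : 0 ≤ l := Real.log_nonneg har
  set q : ℝ := (a : ℝ) ^ (1 / 4 : ℝ) with hq
  have hq0 : 0 < q := Real.rpow_pos_of_pos ha0 _
  have hq4 : q ^ 4 = a := by
    rw [hq, ← Real.rpow_natCast, ← Real.rpow_mul ha0.le]
    norm_num
  set w : ℝ := Real.sqrt l with hw
  have hw0 : 0 ≤ w := Real.sqrt_nonneg _
  have hw2 : w ^ 2 = l := Real.sq_sqrt hl0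
  set ε : ℝ := 18 * w / q with hε
  have hε0' : 0 ≤ ε := by positivity
  have hab0 : (0 : ℝ) < a * b := by positivity
  rcases Nat.lt_or_ge a 2 with ha2 | ha2
  · -- a = b = 1
    have ha : a = 1 := by omega
    have hb : b = 1 := by omega
    obtain ⟨col, hc1, hc2⟩ := greedy_bound G A hbip a b hA hB
    refine ⟨col, fun u v h => ?_, hc2⟩
    have h1 := hc1 u v h
    have h2 : col s(u, v) = 0 := by
      rw [ha, hb] at h1
      omega
    rw [h2, Nat.cast_zero]
    positivity
  · rcases le_or_gt 1 ε with h1ε | h1ε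
    · obtain ⟨col, hc1, hc2⟩ := greedy_bound G A hbip a b hA hB
      refine ⟨col, fun u v h => ?_, hc2⟩
      have h1 := hc1 u v h
      have h2 : col s(u, v) < 2 * a * b := by omega
      have h3 : (col s(u, v) : ℝ) < 2 * a * b := by exact_mod_cast h2
      refine h3.trans_le ?_
      have h4 := mul_le_mul_of_nonneg_right h1ε hab0.le
      nlinarith
    · -- the main case
      have ha2r : (2 : ℝ) ≤ a := by exact_mod_cast ha2
      have hlog2 : (0.69 : ℝ) < l := by
        have h1 := Real.log_two_gt_d9
        have h2 : Real.log 2 ≤ l := Real.log_le_log (by norm_num) ha2r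
        linarith
      have hwpos : 0 < w := by
        rw [hw]
        exact Real.sqrt_pos.2 (by linarith)
      have hεpos : 0 < ε := by positivity
      have h18 : 18 * w < q := by
        rw [hε, div_lt_one hq0] at h1ε
        exact h1ε
      have hq2 : 324 * l < q ^ 2 := by
        have : (18 * w) ^ 2 < q ^ 2 := pow_lt_pow_left₀ h18 (by positivity) (by norm_num)
        nlinarith
      have hq2' : 223 < q ^ 2 := by linarith
      have hl1 : 1 ≤ l := by
        have h3 : (3 : ℝ) ≤ a := by
          rw [← hq4]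
          nlinarith
        have h4 : Real.exp 1 ≤ a := by
          have := Real.exp_one_lt_d9
          linarith
        rw [hl, Real.le_log_iff_exp_le ha0]
        exact h4
      have hε2 : ε ^ 2 * q ^ 2 = 324 * l := by
        rw [hε, div_pow, div_mul_cancel₀ _ (by positivity), mul_pow, hw2]
        norm_num
      have hε2pos : 0 < ε ^ 2 := by positivity
      have hε2le : ε ^ 2 ≤ 1 := by nlinarith
      -- the number of repetitions
      set m : ℕ := ⌈128 / ε ^ 2 * (3 * l + 2)⌉₊ with hm
      have hmge : 128 / ε ^ 2 * (3 * l + 2) ≤ m := Nat.le_ceil _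
      have hmlt : (m : ℝ) < 128 / ε ^ 2 * (3 * l + 2) + 1 := Nat.ceil_lt_add_one (by positivity)
      have hm0 : 0 < m := Nat.ceil_pos.2 (by positivity)
      have hmr0 : (0 : ℝ) < m := by exact_mod_cast hm0
      have hmle : ε ^ 2 * m ≤ 641 * l := by
        have h3 : ε ^ 2 * m ≤ ε ^ 2 * (128 / ε ^ 2 * (3 * l + 2) + 1) :=
          mul_le_mul_of_nonneg_left hmlt.le hε2pos.le
        have h4 : ε ^ 2 * (128 / ε ^ 2 * (3 * l + 2) + 1) = 128 * (3 * l + 2) + ε ^ 2 := by
          field_simp
        rw [h4] at h3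
        linarith
      have hmq : (m : ℝ) ≤ 2 * q ^ 2 := by
        have h3 : (324 * l) * m ≤ (641 * l) * q ^ 2 := by
          calc (324 * l) * m = (ε ^ 2 * m) * q ^ 2 := by rw [← hε2]; ring
            _ ≤ (641 * l) * q ^ 2 := mul_le_mul_of_nonneg_right hmle (by positivity)
        have h4 : 324 * (m : ℝ) ≤ 641 * q ^ 2 := by
          have h5 : l * (324 * m) ≤ l * (641 * q ^ 2) := by linarith
          exact le_of_mul_le_mul_left h5 (by linarith)
        nlinarith
      have hma : m ≤ a := by
        have h3 : (m : ℝ) ≤ a := by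
          rw [← hq4]
          nlinarith
        exact_mod_cast h3
      refine core G A hbip a b m ha1 hb1 hba hm0 hma hA hB ε hεpos h1ε.le ?_ ?_
      · rw [le_div_iff₀ (by norm_num)]
        have h3 := mul_le_mul_of_nonneg_left hmge hε2pos.le
        have h4 : ε ^ 2 * (128 / ε ^ 2 * (3 * l + 2)) = (3 * l + 2) * 128 := by
          field_simp
        rw [h4] at h3
        exact h3
      · rw [le_div_iff₀ (by positivity)]
        -- ε² a ≥ 24 m (4 l + 2)
        have h3 : (4 * l + 2) * (24 * m) ≤ 144 * l * m := by nlinarith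
        refine h3.trans ?_
        -- multiply by ε²
        have h5 : ε ^ 2 * (144 * l * m) ≤ ε ^ 2 * (ε ^ 2 * a) := by
          have h6 : ε ^ 2 * (ε ^ 2 * a) = (324 * l) ^ 2 := by
            rw [← hq4, ← hε2]; ring
          rw [h6]
          calc ε ^ 2 * (144 * l * m) = 144 * l * (ε ^ 2 * m) := by ring
            _ ≤ 144 * l * (641 * l) := mul_le_mul_of_nonneg_left hmle (by positivity)
            _ ≤ (324 * l) ^ 2 := by nlinarith [sq_nonneg l]
        exact le_of_mul_le_mul_left h5 hε2pos

end

/-- **The strong chromatic index of bipartite graphs.**  Every finite bipartite graph with degrees at most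
`Δ₁` on one side and at most `Δ₂` on the other side has a strong edge colouring with fewer than
`(1 + 18 √(log Δ) / Δ^(1/4)) Δ₁ Δ₂` colours, where `Δ = max Δ₁ Δ₂`. -/
theorem result (V : Type) [Fintype V] (G : SimpleGraph V) (A : Set V) (Δ₁ Δ₂ : ℕ)
    (hbip : ∀ u v, G.Adj u v → (u ∈ A ↔ v ∉ A))
    (h₁ : ∀ v ∈ A, (G.neighborSet v).ncard ≤ Δ₁)
    (h₂ : ∀ v, v ∉ A → (G.neighborSet v).ncard ≤ Δ₂) :
    ∃ col : Sym2 V → ℕ,
      (∀ a b, G.Adj a b → (col s(a, b) : ℝ) <
        (1 + 18 * Real.sqrt (Real.log (max Δ₁ Δ₂ : ℕ)) / ((max Δ₁ Δ₂ : ℕ) : ℝ) ^ (1 / 4 : ℝ)) *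
          (Δ₁ * Δ₂)) ∧
      (∀ a b c d, G.Adj a b → G.Adj c d → s(a, b) ≠ s(c, d) →
        (b = c ∨ G.Adj b c) → col s(a, b) ≠ col s(c, d)) := by
  classical
  have hdeg : ∀ v, (G.neighborSet v).ncard = G.degree v := by
    intro v
    rw [Set.ncard_eq_toFinset_card', ← SimpleGraph.card_neighborFinset_eq_degree]
    rfl
  rcases le_total Δ₂ Δ₁ with h | h
  · rw [max_eq_left h]
    exact oriented G A hbip Δ₁ Δ₂ h (fun v hv => (hdeg v) ▸ h₁ v hv)
      (fun v hv => (hdeg v) ▸ h₂ v hv)
  · rw [max_eq_right h]
    have hbip' : ∀ u v, G.Adj u v → (u ∈ Aᶜ ↔ v ∉ Aᶜ) := by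
      intro u v huv
      have := hbip u v huv
      simp only [Set.mem_compl_iff, not_not]
      tauto
    obtain ⟨col, hc1, hc2⟩ := oriented G Aᶜ hbip' Δ₂ Δ₁ h (fun v hv => (hdeg v) ▸ h₂ v hv)
      (fun v hv => (hdeg v) ▸ h₁ v (by simpa using hv))
    refine ⟨col, fun u v huv => ?_, hc2⟩
    rw [mul_comm (Δ₁ : ℝ) Δ₂]
    exact hc1 u v huv

end Final

end Pool.Agent.Results.MP_433a35_co.Bipartite
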