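import Pool.Agent.Work.MP_433a35_co.GB.FC.Final
import Pool.Agent.Work.MP_433a35_co.GB.Frac

/-!
# The fractional strong chromatic index of every graph is at most (5/4) Δ²

The asymptotic bound `(5/4 + ε) D²` for the strong chromatic index (`MP433Sys.FC.strong`: random
partial colourings and the lopsided local lemma reduce it to almost pairwise conflicting sets of
edges, for which a sum of squares certificate on graphs with at most six vertices is verified by the
kernel) gives the exact fractional bound for every `D`: blow up every vertex of `G` into an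
independent set of `t` vertices; the blow-up has degrees at most `t D`, so for large `t` it has a
strong edge colouring with fewer than `(5/4 + ε) t² D²` colours; every colour class projects to an
induced matching of `G`, and every edge of `G` is covered `t²` times.  Let `ε → 0` and use
compactness.
-/

namespace Pool.Agent.Results.MP_433a35_co.FracFiveFourths

open Finset

/-- Every finite simple graph with all degrees at most `D` has a fractional strong edge colouring
(nonnegative weights on the induced matchings, total weight `1` at every edge) of total weight at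
most `(5/4) D²`. -/
theorem result.{u} (V : Type u) [Fintype V] [DecidableEq V] (G : SimpleGraph V) (D : ℕ)
    (hD : ∀ v, (G.neighborSet v).ncard ≤ D) :
    ∃ μ : Finset (Sym2 V) → ℝ,
      (∀ M, 0 ≤ μ M) ∧
      (∀ M, μ M ≠ 0 → (∀ e ∈ M, e ∈ G.edgeSet) ∧
        ∀ e ∈ M, ∀ e' ∈ M, e ≠ e' → ∀ x ∈ e, ∀ y ∈ e', x ≠ y ∧ ¬ G.Adj x y) ∧
      (∀ e ∈ G.edgeSet, ∑ M with e ∈ M, μ M = 1) ∧
      ∑ M, μ M ≤ 5 / 4 * (D : ℝ) ^ 2 := by
  obtain ⟨μ, h1, h2, h3, h4⟩ := MP433Frac.frac_of_strong (G := G) (5 / 4) (by norm_num)
    (fun ε hε => MP433Sys.FC.strong ε hε) D hD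
  refine ⟨μ, h1, fun M hM => ?_, h3, h4⟩
  by_contra hn
  exact hM (h2 M hn)

end Pool.Agent.Results.MP_433a35_co.FracFiveFourths
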