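import Pool.Agent.Work.MP_433a35_co.GB.FC.Final

/-!
# The strong chromatic index of every graph is at most (5/4 + o(1)) Δ²

Proof outline.

1. (`MP433GB.gb`) Let `H` be a graph and `X v ≥ x0 N` with `X v + deg v + 1 ≤ κ N` such that every
   subset `U` of a neighbourhood with at most `η N²` non-adjacent pairs has
   `∑_{u ∈ U} 1 / X u ≤ 1 + e1`.  Then `H` is `(κ / 2 + ε) N`-colourable, `N` large.  The proof is a
   random partial colouring with the hard-core weights `g / X v`, the lopsided local lemma and a
   greedy colouring of the holes.
2. (`MP433GB.edge_main`) For the square of the line graph of a graph of maximum degree at most `D`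
   the numbers `X` come from the common neighbours and the edges inside the neighbourhoods; it
   remains to bound `∑ 1 / X` over almost pairwise conflicting sets of edges.
3. (`MP433Sys`) By duality this follows from an inequality between densities of marked graphs on at
   most six vertices with weights on the edges, up to a multiple of the number of non-conflicting
   pairs.
4. (`MP433Sys.FC`) For `κ = 5/2` the inequality has a sum of squares certificate (blocks of flags
   and inequalities from the degree bound), found numerically, rounded to integers and verified by
   the kernel.
-/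

namespace Pool.Agent.Results.MP_433a35_co.StrongFiveFourths

/-- For every `ε > 0`, every finite simple graph with all degrees at most `D`, `D` large, has a
strong edge colouring with fewer than `(5/4 + ε) D²` colours. -/
theorem result (ε : ℝ) (hε : 0 < ε) :
    ∃ K : ℕ, ∀ (V : Type) [Fintype V] (G : SimpleGraph V) (D : ℕ), K ≤ D →
      (∀ v, (G.neighborSet v).ncard ≤ D) →
      ∃ col : Sym2 V → ℕ,
        (∀ a b, G.Adj a b → (col s(a, b) : ℝ) < (5 / 4 + ε) * (D : ℝ) ^ 2) ∧
        ∀ a b c e, G.Adj a b → G.Adj c e → s(a, b) ≠ s(c, e) → (b = c ∨ G.Adj b c) →
          col s(a, b) ≠ col s(c, e) :=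
  MP433Sys.FC.strong ε hε

end Pool.Agent.Results.MP_433a35_co.StrongFiveFourths
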